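import Pool.Agent.GSC.Count

/-!
The number of the wasted triples from below.
-/

set_option autoImplicit false

namespace Pool.Agent.GSC

/-- Summation by parts over a finite set with an index function. -/
theorem abel {ι : Type} (s : Finset ι) (f : ι → ℕ) (k : ℕ) (hf : ∀ y ∈ s, f y ≤ k) (h α : ℕ → ℝ)
    (hh : ∀ j < k, h j ≤ h (j + 1))
    (hα : ∀ j < k, ((s.filter fun y => f y ≤ j).card : ℝ) ≤ α j * s.card) :
    (h k - ∑ j ∈ Finset.range k, α j * (h (j + 1) - h j)) * s.card ≤ ∑ y ∈ s, h (f y) := by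
  have key : ∀ i m : ℕ, i ≤ m → h m = h i +
      ∑ j ∈ Finset.range m, (if i ≤ j then h (j + 1) - h j else 0) := by
    intro i m him
    induction m, him using Nat.le_induction with
    | base =>
      rw [Finset.sum_eq_zero, add_zero]
      intro j hj
      rw [if_neg]
      have := Finset.mem_range.1 hj
      omega
    | succ m hm ih =>
      rw [Finset.sum_range_succ, if_pos hm]
      linarith
  have h1 : ∑ y ∈ s, h (f y) = h k * s.card -
      ∑ j ∈ Finset.range k, ((s.filter fun y => f y ≤ j).card : ℝ) * (h (j + 1) - h j) := by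
    have h2 : ∀ y ∈ s, h (f y) = h k -
        ∑ j ∈ Finset.range k, (if f y ≤ j then h (j + 1) - h j else 0) := by
      intro y hy
      have := key (f y) k (hf y hy)
      linarith
    rw [Finset.sum_congr rfl h2, Finset.sum_sub_distrib, Finset.sum_const, nsmul_eq_mul,
      Finset.sum_comm, mul_comm]
    congr 1
    refine Finset.sum_congr rfl fun j _ => ?_
    rw [← Finset.sum_filter, Finset.sum_const, nsmul_eq_mul]
  rw [h1, sub_mul, Finset.sum_mul]
  have h3 : ∑ j ∈ Finset.range k, ((s.filter fun y => f y ≤ j).card : ℝ) * (h (j + 1) - h j) ≤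
      ∑ j ∈ Finset.range k, α j * (h (j + 1) - h j) * s.card := by
    refine Finset.sum_le_sum fun j hj => ?_
    have h4 := hα j (Finset.mem_range.1 hj)
    have h5 := hh j (Finset.mem_range.1 hj)
    have := mul_le_mul_of_nonneg_right h4 (sub_nonneg.2 h5)
    linarith
  linarith

/-- The wasted triples. -/
noncomputable def W (N : ℕ) : Finset ((ℕ × ℕ) × ℕ) :=
  (T (S N)).filter fun t => N + t.1.1 < t.1.2 + t.2

/-- Ordered version. -/
theorem ordered_le (N : ℕ) :
    ∑ y ∈ S N, ∑ z ∈ S N, ((S N).filter fun x => x < y ∧ x < z ∧ N + x < y + z).card ≤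
      2 * (W N).card := by
  classical
  rw [← Finset.sum_product' (S N) (S N)
    (fun y z => ((S N).filter fun x => x < y ∧ x < z ∧ N + x < y + z).card)]
  have h1 : ∑ p ∈ S N ×ˢ S N, ((S N).filter fun x => x < p.1 ∧ x < p.2 ∧ N + x < p.1 + p.2).card ≤
      ∑ p ∈ (S N ×ˢ S N).filter (fun p => p.1 ≤ p.2),
        ((S N).filter fun x => x < p.1 ∧ x < p.2 ∧ N + x < p.1 + p.2).card +
      ∑ p ∈ (S N ×ˢ S N).filter (fun p => p.2 ≤ p.1),
        ((S N).filter fun x => x < p.1 ∧ x < p.2 ∧ N + x < p.1 + p.2).card := by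
    rw [← Finset.sum_filter_add_sum_filter_not (S N ×ˢ S N) (fun p => p.1 ≤ p.2)]
    refine Nat.add_le_add_left (Finset.sum_le_sum_of_subset ?_) _
    intro p hp
    rw [Finset.mem_filter] at hp ⊢
    exact ⟨hp.1, by omega⟩
  have h2 : ∑ p ∈ (S N ×ˢ S N).filter (fun p => p.1 ≤ p.2),
      ((S N).filter fun x => x < p.1 ∧ x < p.2 ∧ N + x < p.1 + p.2).card ≤ (W N).card := by
    rw [← Finset.card_sigma]
    refine Finset.card_le_card_of_injOn (fun q => ((q.2, q.1.1), q.1.2)) ?_ ?_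
    · rintro ⟨⟨y, z⟩, x⟩ hq
      simp only [Finset.coe_sigma, Set.mem_sigma_iff, Finset.mem_coe, Finset.mem_filter,
        Finset.mem_product] at hq
      obtain ⟨⟨⟨hy, hz⟩, hyz⟩, hx, hxy, hxz, h⟩ := hq
      simp only [Finset.mem_coe, W, Finset.mem_filter, mem_T]
      exact ⟨⟨hx, hy, hz, hxy, hyz⟩, h⟩
    · rintro ⟨⟨y, z⟩, x⟩ - ⟨⟨y', z'⟩, x'⟩ - h
      simp only [Prod.mk.injEq] at h
      obtain ⟨⟨rfl, rfl⟩, rfl⟩ := h
      rfl
  have h3 : ∑ p ∈ (S N ×ˢ S N).filter (fun p => p.2 ≤ p.1),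
      ((S N).filter fun x => x < p.1 ∧ x < p.2 ∧ N + x < p.1 + p.2).card ≤ (W N).card := by
    rw [← Finset.card_sigma]
    refine Finset.card_le_card_of_injOn (fun q => ((q.2, q.1.2), q.1.1)) ?_ ?_
    · rintro ⟨⟨y, z⟩, x⟩ hq
      simp only [Finset.coe_sigma, Set.mem_sigma_iff, Finset.mem_coe, Finset.mem_filter,
        Finset.mem_product] at hq
      obtain ⟨⟨⟨hy, hz⟩, hyz⟩, hx, hxy, hxz, h⟩ := hq
      simp only [Finset.mem_coe, W, Finset.mem_filter, mem_T]
      exact ⟨⟨hx, hz, hy, hxz, hyz⟩, by omega⟩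
    · rintro ⟨⟨y, z⟩, x⟩ - ⟨⟨y', z'⟩, x'⟩ - h
      simp only [Prod.mk.injEq] at h
      obtain ⟨⟨rfl, rfl⟩, rfl⟩ := h
      rfl
  omega

/-- The cell of `y`. -/
def idx (K N y : ℕ) : ℕ := (y * K - 1) / N

theorem idx_le {K N y : ℕ} (hK : 1 ≤ K) (hy : 1 ≤ y) (hN : y ≤ N) :
    idx K N y + 1 ≤ K ∧ idx K N y * N < y * K := by
  have hN0 : 0 < N := by omega
  have h1 : 1 ≤ y * K := Nat.mul_pos hy hK
  constructor
  · rw [idx, Nat.succ_le_iff, Nat.div_lt_iff_lt_mul hN0]
    have : y * K ≤ K * N := by rw [mul_comm]; exact Nat.mul_le_mul_left K hN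
    omega
  · have := Nat.div_mul_le_self (y * K - 1) N
    rw [idx]
    omega

theorem idx_le_iff {K N y j : ℕ} (hK : 1 ≤ K) (hy : 1 ≤ y) (hN0 : 0 < N) :
    idx K N y ≤ j ↔ y * K ≤ (j + 1) * N := by
  have h1 : 1 ≤ y * K := Nat.mul_pos hy hK
  rw [idx, ← Nat.lt_succ_iff, Nat.div_lt_iff_lt_mul hN0, Nat.succ_eq_add_one]
  omega

/-- The number of the terms in the first `j` of the `K` cells of `[1, N]`. -/
theorem card_cells {K N j : ℕ} (hK : 1 ≤ K) (hj : j ≤ K) :
    ((S N).filter fun x => x * K ≤ j * N).card = A (j * N / K) := by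
  rw [← card_S]
  congr 1
  ext x
  rw [Finset.mem_filter, mem_S, mem_S, Nat.le_div_iff_mul_le hK]
  constructor
  · rintro ⟨⟨_, h2⟩, h3⟩
    exact ⟨h3, h2⟩
  · rintro ⟨h1, h2⟩
    refine ⟨⟨?_, h2⟩, h1⟩
    have : x * K ≤ N * K := h1.trans (by rw [mul_comm N]; exact Nat.mul_le_mul_right N hj)
    exact Nat.le_of_mul_le_mul_right this hK

/-- The number of wasted triples is at least a sum over the cells. -/
theorem waste_cells {K N : ℕ} (hK : 1 ≤ K) :
    ∑ y ∈ S N, ∑ z ∈ S N, A ((idx K N y + idx K N z - K) * N / K) ≤ 2 * (W N).card := by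
  refine le_trans (Finset.sum_le_sum fun y hy => Finset.sum_le_sum fun z hz => ?_) (ordered_le N)
  have hy1 := one_le_of_mem_S hy
  have hz1 := one_le_of_mem_S hz
  have hyN := (mem_S.1 hy).1
  have hzN := (mem_S.1 hz).1
  obtain ⟨hy2, hy3⟩ := idx_le hK hy1 hyN
  obtain ⟨hz2, hz3⟩ := idx_le hK hz1 hzN
  have hj : idx K N y + idx K N z - K ≤ K := by omega
  rw [← card_cells hK hj]
  refine Finset.card_le_card fun x hx => ?_
  rw [Finset.mem_filter] at hx ⊢
  obtain ⟨hx1, hx2⟩ := hx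
  have hx0 := one_le_of_mem_S hx1
  refine ⟨hx1, ?_⟩
  generalize idx K N y = i at *
  generalize idx K N z = l at *
  rcases Nat.lt_or_ge (i + l) K with hil | hil
  · exfalso
    rw [Nat.sub_eq_zero_of_le hil.le, zero_mul] at hx2
    have : 0 < x * K := Nat.mul_pos hx0 hK
    omega
  · obtain ⟨d, hd⟩ := Nat.exists_eq_add_of_le hil
    rw [hd, Nat.add_sub_cancel_left] at hx2
    have e1 : i * N + l * N = K * N + d * N := by rw [← add_mul, ← add_mul, hd]
    have h3 : d * N ≤ i * N := Nat.mul_le_mul_right N (by omega)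
    have h4 : d * N ≤ l * N := Nat.mul_le_mul_right N (by omega)
    refine ⟨?_, ?_, ?_⟩
    · have : x * K < y * K := by omega
      exact Nat.lt_of_mul_lt_mul_right this
    · have : x * K < z * K := by omega
      exact Nat.lt_of_mul_lt_mul_right this
    · have : (N + x) * K < (y + z) * K := by
        rw [add_mul, add_mul, mul_comm N K]
        omega
      exact Nat.lt_of_mul_lt_mul_right this

end Pool.Agent.GSC
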