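import Mathlib

/-!
The greedy Sidon sequence: definitions and the covering property.
-/

set_option autoImplicit false

namespace Pool.Agent.GSC

/-- `S` is a Sidon set: the equation `a + b = c + d` in `S` has only the trivial solutions. -/
def IsSidon (S : Set ℕ) : Prop :=
  ∀ a ∈ S, ∀ b ∈ S, ∀ c ∈ S, ∀ d ∈ S, a + b = c + d → (a = c ∧ b = d) ∨ (a = d ∧ b = c)

/-- The greedy Sidon sequence `1, 2, 4, 8, 13, 21, …`: `greedy 0 = 1` and `greedy (k + 1)` is the
least integer `m > greedy k` such that `{greedy 0, …, greedy k, m}` is a Sidon set. -/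
noncomputable def greedy : ℕ → ℕ
  | 0 => 1
  | k + 1 => sInf {m | greedy k < m ∧ IsSidon (insert m {a | ∃ j, ∃ _ : j < k + 1, a = greedy j})}

/-- The number of the terms of the greedy Sidon sequence which are at most `N`. -/
noncomputable def A (N : ℕ) : ℕ := {a | a ∈ Set.range greedy ∧ a ≤ N}.ncard

/-- The first `k + 1` terms. -/
def terms (k : ℕ) : Set ℕ := {a | ∃ j, ∃ _ : j < k + 1, a = greedy j}

theorem greedy_zero : greedy 0 = 1 := by rw [greedy]

theorem greedy_succ (k : ℕ) :
    greedy (k + 1) = sInf {m | greedy k < m ∧ IsSidon (insert m (terms k))} := by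
  rw [greedy]; rfl

theorem isSidon_insert {S : Set ℕ} (hS : IsSidon S) {g m : ℕ} (hg : ∀ a ∈ S, a ≤ g)
    (hm : 2 * g < m) : IsSidon (insert m S) := by
  intro a ha b hb c hc d hd h
  rcases ha with rfl | ha <;> rcases hb with rfl | hb <;> rcases hc with rfl | hc <;>
    rcases hd with rfl | hd
  all_goals first
    | (exact hS a ha b hb c hc d hd h)
    | (have := hg _ ha; have := hg _ hb; have := hg _ hc; have := hg _ hd; omega)
    | (have := hg _ ha; have := hg _ hb; have := hg _ hc; omega)
    | (have := hg _ ha; have := hg _ hb; have := hg _ hd; omega)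
    | (have := hg _ ha; have := hg _ hc; have := hg _ hd; omega)
    | (have := hg _ hb; have := hg _ hc; have := hg _ hd; omega)
    | (have := hg _ ha; have := hg _ hb; omega)
    | (have := hg _ ha; have := hg _ hc; omega)
    | (have := hg _ ha; have := hg _ hd; omega)
    | (have := hg _ hb; have := hg _ hc; omega)
    | (have := hg _ hb; have := hg _ hd; omega)
    | (have := hg _ hc; have := hg _ hd; omega)
    | (have := hg _ ha; omega)
    | (have := hg _ hb; omega)
    | (have := hg _ hc; omega)
    | (have := hg _ hd; omega)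
    | omega

theorem terms_zero : terms 0 = {1} := by
  ext a
  simp [terms, greedy_zero]

theorem terms_succ (k : ℕ) : terms (k + 1) = insert (greedy (k + 1)) (terms k) := by
  ext a
  simp only [terms, Set.mem_setOf_eq, Set.mem_insert_iff, exists_prop]
  constructor
  · rintro ⟨j, hj, rfl⟩
    rcases Nat.lt_succ_iff_lt_or_eq.1 hj with h | rfl
    · exact Or.inr ⟨j, h, rfl⟩
    · exact Or.inl rfl
  · rintro (rfl | ⟨j, hj, rfl⟩)
    · exact ⟨k + 1, by omega, rfl⟩
    · exact ⟨j, by omega, rfl⟩

/-- The induction: the first terms form a Sidon set, the last one is the largest. -/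
theorem step (k : ℕ) : IsSidon (terms k) ∧ (∀ a ∈ terms k, a ≤ greedy k) ∧
    greedy k < greedy (k + 1) ∧
    (∀ m, greedy k < m → m < greedy (k + 1) → ¬ IsSidon (insert m (terms k))) := by
  induction k with
  | zero =>
    have h1 : IsSidon (terms 0) := by
      rw [terms_zero]
      rintro a rfl b rfl c rfl d rfl -
      exact Or.inl ⟨rfl, rfl⟩
    have h2 : ∀ a ∈ terms 0, a ≤ greedy 0 := by
      rw [terms_zero, greedy_zero]
      rintro a rfl
      exact le_rfl
    have hne : {m | greedy 0 < m ∧ IsSidon (insert m (terms 0))}.Nonempty :=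
      ⟨2 * greedy 0 + 1, by show greedy 0 < _; omega, isSidon_insert h1 h2 (by omega)⟩
    have h3 := Nat.sInf_mem hne
    rw [← greedy_succ] at h3
    refine ⟨h1, h2, h3.1, fun m hm hm' hS => ?_⟩
    have : greedy (0 + 1) ≤ m := by
      rw [greedy_succ]
      exact Nat.sInf_le ⟨hm, hS⟩
    omega
  | succ k ih =>
    obtain ⟨i1, i2, i3, -⟩ := ih
    have hne0 : {m | greedy k < m ∧ IsSidon (insert m (terms k))}.Nonempty :=
      ⟨2 * greedy k + 1, by show greedy k < _; omega, isSidon_insert i1 i2 (by omega)⟩
    have h0 := Nat.sInf_mem hne0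
    rw [← greedy_succ] at h0
    have h1 : IsSidon (terms (k + 1)) := by
      rw [terms_succ]
      exact h0.2
    have h2 : ∀ a ∈ terms (k + 1), a ≤ greedy (k + 1) := by
      rw [terms_succ]
      rintro a (rfl | ha)
      · exact le_rfl
      · exact (i2 a ha).trans i3.le
    have hne : {m | greedy (k + 1) < m ∧ IsSidon (insert m (terms (k + 1)))}.Nonempty :=
      ⟨2 * greedy (k + 1) + 1, by show greedy (k + 1) < _; omega, isSidon_insert h1 h2 (by omega)⟩
    have h3 := Nat.sInf_mem hne
    rw [← greedy_succ] at h3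
    refine ⟨h1, h2, h3.1, fun m hm hm' hS => ?_⟩
    have : greedy (k + 1 + 1) ≤ m := by
      rw [greedy_succ]
      exact Nat.sInf_le ⟨hm, hS⟩
    omega

theorem greedy_strictMono : StrictMono greedy := strictMono_nat_of_lt_succ fun k => (step k).2.2.1

/-- Covering: every positive integer which is no term of the sequence is `y + z - x` with terms
`x < y ≤ z < m`. -/
theorem cover {m : ℕ} (hm : 1 ≤ m) (hmA : m ∉ Set.range greedy) :
    ∃ x ∈ Set.range greedy, ∃ y ∈ Set.range greedy, ∃ z ∈ Set.range greedy,
      x < y ∧ y ≤ z ∧ z < m ∧ m + x = y + z := by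
  -- the index
  obtain ⟨k, hk1, hk2⟩ : ∃ k, greedy k < m ∧ m < greedy (k + 1) := by
    have hex : ∃ k, m < greedy k := ⟨m + 1, lt_of_lt_of_le (Nat.lt_succ_self m)
      (greedy_strictMono.id_le (m + 1))⟩
    classical
    have h1 := Nat.find_spec hex
    have h2 : Nat.find hex ≠ 0 := by
      intro h0
      rw [h0, greedy_zero] at h1
      omega
    obtain ⟨k, hk⟩ := Nat.exists_eq_succ_of_ne_zero h2
    refine ⟨k, ?_, by rw [hk] at h1; exact h1⟩
    have h3 : ¬ m < greedy k := Nat.find_min hex (by omega)
    rcases Nat.lt_or_eq_of_le (Nat.not_lt.1 h3) with h | h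
    · exact h
    · exact absurd ⟨k, h⟩ hmA
  obtain ⟨i1, i2, -, i4⟩ := step k
  have hlt : ∀ a ∈ terms k, a < m := fun a ha => lt_of_le_of_lt (i2 a ha) hk1
  have hr : ∀ a ∈ terms k, a ∈ Set.range greedy := by
    rintro a ⟨j, -, rfl⟩
    exact ⟨j, rfl⟩
  have key : ∀ x ∈ terms k, ∀ c ∈ terms k, ∀ d ∈ terms k, m + x = c + d →
      ∃ x ∈ Set.range greedy, ∃ y ∈ Set.range greedy, ∃ z ∈ Set.range greedy,
      x < y ∧ y ≤ z ∧ z < m ∧ m + x = y + z := by
    intro x hx c hc d hd h
    have hcm := hlt c hc
    have hdm := hlt d hd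
    rcases le_total c d with hcd | hcd
    · exact ⟨x, hr x hx, c, hr c hc, d, hr d hd, by omega, hcd, hdm, h⟩
    · exact ⟨x, hr x hx, d, hr d hd, c, hr c hc, by omega, hcd, hcm, by omega⟩
  by_contra hcon
  refine i4 m hk1 hk2 ?_
  intro a ha b hb c hc d hd h
  rcases ha with rfl | ha
  · rcases hc with rfl | hc
    · left; omega
    · rcases hd with rfl | hd
      · right; omega
      · rcases hb with rfl | hb
        · have := hlt c hc; have := hlt d hd; omega
        · exact absurd (key b hb c hc d hd h) hcon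
  · rcases hb with rfl | hb
    · rcases hc with rfl | hc
      · right; omega
      · rcases hd with rfl | hd
        · left; omega
        · exact absurd (key a ha c hc d hd (by omega)) hcon
    · rcases hc with rfl | hc
      · rcases hd with rfl | hd
        · have := hlt a ha; have := hlt b hb; omega
        · exact absurd (key d hd a ha b hb (by omega)) hcon
      · rcases hd with rfl | hd
        · exact absurd (key c hc a ha b hb (by omega)) hcon
        · exact i1 a ha b hb c hc d hd h

theorem one_le_of_mem {a : ℕ} (h : a ∈ Set.range greedy) : 1 ≤ a := by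
  obtain ⟨k, rfl⟩ := h
  have := greedy_strictMono.monotone (Nat.zero_le k)
  rw [greedy_zero] at this
  exact this

end Pool.Agent.GSC
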