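import Pool.Agent.GSC.Basic

/-!
Counting the triples `x < y ≤ z` of a finite set.
-/

set_option autoImplicit false

namespace Pool.Agent.GSC

/-- The pairs `x < y`. -/
def P (s : Finset ℕ) : Finset (ℕ × ℕ) := (s ×ˢ s).filter fun t => t.1 < t.2

/-- The triples `x < y ≤ z`. -/
def T (s : Finset ℕ) : Finset ((ℕ × ℕ) × ℕ) :=
  ((s ×ˢ s) ×ˢ s).filter fun t => t.1.1 < t.1.2 ∧ t.1.2 ≤ t.2

theorem mem_P {s : Finset ℕ} {t : ℕ × ℕ} : t ∈ P s ↔ t.1 ∈ s ∧ t.2 ∈ s ∧ t.1 < t.2 := by
  simp [P, and_assoc]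

theorem mem_T {s : Finset ℕ} {t : (ℕ × ℕ) × ℕ} :
    t ∈ T s ↔ t.1.1 ∈ s ∧ t.1.2 ∈ s ∧ t.2 ∈ s ∧ t.1.1 < t.1.2 ∧ t.1.2 ≤ t.2 := by
  simp [T, and_assoc]

theorem P_insert {s : Finset ℕ} {M : ℕ} (h : ∀ x ∈ s, x < M) :
    P (insert M s) = P s ∪ s.image fun x => (x, M) := by
  ext ⟨x, y⟩
  simp only [mem_P, Finset.mem_insert, Finset.mem_union, Finset.mem_image, Prod.mk.injEq]
  constructor
  · rintro ⟨rfl | hx, rfl | hy, hxy⟩
    · omega
    · have := h y hy; omega
    · exact Or.inr ⟨x, hx, rfl, rfl⟩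
    · exact Or.inl ⟨hx, hy, hxy⟩
  · rintro (⟨hx, hy, hxy⟩ | ⟨x', hx, rfl, rfl⟩)
    · exact ⟨Or.inr hx, Or.inr hy, hxy⟩
    · exact ⟨Or.inr hx, Or.inl rfl, h _ hx⟩

theorem P_card (s : Finset ℕ) : 2 * (P s).card + s.card = s.card ^ 2 := by
  induction s using Finset.induction_on_max with
  | empty => simp [P]
  | insert M s h ih =>
    have hM : M ∉ s := fun hM => lt_irrefl _ (h M hM)
    rw [P_insert h, Finset.card_union_of_disjoint, Finset.card_image_of_injective,
      Finset.card_insert_of_notMem hM]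
    · have : (s.card + 1) ^ 2 = s.card ^ 2 + 2 * s.card + 1 := by ring
      omega
    · intro a b hab
      simpa using hab
    · rw [Finset.disjoint_left]
      rintro ⟨x, y⟩ h1 h2
      rw [mem_P] at h1
      simp only [Finset.mem_image, Prod.mk.injEq] at h2
      obtain ⟨_, _, _, rfl⟩ := h2
      exact hM h1.2.1

theorem T_insert {s : Finset ℕ} {M : ℕ} (h : ∀ x ∈ s, x < M) :
    T (insert M s) = (T s ∪ (P s).image fun p => (p, M)) ∪ s.image fun x => ((x, M), M) := by
  ext ⟨⟨x, y⟩, z⟩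
  simp only [mem_T, Finset.mem_insert, Finset.mem_union, Finset.mem_image, Prod.mk.injEq, mem_P]
  constructor
  · rintro ⟨rfl | hx, rfl | hy, rfl | hz, hxy, hyz⟩
    · omega
    · omega
    · have := h y hy; omega
    · have := h y hy; omega
    · exact Or.inr ⟨x, hx, ⟨rfl, rfl⟩, rfl⟩
    · have := h z hz; omega
    · exact Or.inl (Or.inr ⟨(x, y), ⟨hx, hy, hxy⟩, rfl, rfl⟩)
    · exact Or.inl (Or.inl ⟨hx, hy, hz, hxy, hyz⟩)
  · rintro ((⟨hx, hy, hz, hxy, hyz⟩ | ⟨p, ⟨hx, hy, hxy⟩, rfl, rfl⟩) | ⟨x', hx, ⟨rfl, rfl⟩, rfl⟩)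
    · exact ⟨Or.inr hx, Or.inr hy, Or.inr hz, hxy, hyz⟩
    · exact ⟨Or.inr hx, Or.inr hy, Or.inl rfl, hxy, (h _ hy).le⟩
    · exact ⟨Or.inr hx, Or.inl rfl, Or.inl rfl, h _ hx, le_rfl⟩

theorem T_card (s : Finset ℕ) : 6 * (T s).card + s.card = s.card ^ 3 := by
  induction s using Finset.induction_on_max with
  | empty => simp [T]
  | insert M s h ih =>
    have hM : M ∉ s := fun hM => lt_irrefl _ (h M hM)
    have hP := P_card s
    rw [T_insert h, Finset.card_union_of_disjoint, Finset.card_union_of_disjoint,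
      Finset.card_image_of_injective, Finset.card_image_of_injective,
      Finset.card_insert_of_notMem hM]
    · have : (s.card + 1) ^ 3 = s.card ^ 3 + 3 * s.card ^ 2 + 3 * s.card + 1 := by ring
      omega
    · intro a b hab
      simpa using hab
    · intro a b hab
      simpa using hab
    · rw [Finset.disjoint_left]
      rintro ⟨⟨x, y⟩, z⟩ h1 h2
      rw [mem_T] at h1
      simp only [Finset.mem_image, Prod.mk.injEq] at h2
      obtain ⟨_, _, _, rfl⟩ := h2
      exact hM h1.2.2.1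
    · rw [Finset.disjoint_left]
      rintro ⟨⟨x, y⟩, z⟩ h1 h2
      simp only [Finset.mem_image, Prod.mk.injEq] at h2
      obtain ⟨_, _, ⟨_, rfl⟩, rfl⟩ := h2
      rcases Finset.mem_union.1 h1 with h1 | h1
      · rw [mem_T] at h1
        exact hM h1.2.2.1
      · simp only [Finset.mem_image, Prod.mk.injEq] at h1
        obtain ⟨p, hp, h3, -⟩ := h1
        rw [mem_P] at hp
        rw [h3] at hp
        exact hM hp.2.1

open Classical in
/-- The terms which are at most `N`. -/
noncomputable def S (N : ℕ) : Finset ℕ := (Finset.range (N + 1)).filter fun a => a ∈ Set.range greedy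

theorem mem_S {N a : ℕ} : a ∈ S N ↔ a ≤ N ∧ a ∈ Set.range greedy := by
  simp [S]

theorem card_S (N : ℕ) : (S N).card = A N := by
  rw [A, ← Set.ncard_coe_finset]
  congr 1
  ext a
  simp [mem_S, and_comm]

theorem one_le_of_mem_S {N a : ℕ} (h : a ∈ S N) : 1 ≤ a := one_le_of_mem (mem_S.1 h).2

/-- Every set `Q` of positive integers `≤ N` has at most `A N` elements more than there are triples
of terms with a value `y + z - x` in `Q`. -/
theorem covering (N : ℕ) (Q : Finset ℕ) (hQ : ∀ m ∈ Q, 1 ≤ m ∧ m ≤ N) :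
    Q.card ≤ A N + ((T (S N)).filter fun t => t.1.2 + t.2 - t.1.1 ∈ Q).card := by
  classical
  have h1 : Q ⊆ S N ∪ ((T (S N)).filter fun t => t.1.2 + t.2 - t.1.1 ∈ Q).image
      fun t => t.1.2 + t.2 - t.1.1 := by
    intro m hm
    obtain ⟨h2, h3⟩ := hQ m hm
    by_cases hA : m ∈ Set.range greedy
    · exact Finset.mem_union_left _ (mem_S.2 ⟨h3, hA⟩)
    · obtain ⟨x, hx, y, hy, z, hz, hxy, hyz, hzm, h⟩ := cover h2 hA
      refine Finset.mem_union_right _ (Finset.mem_image.2 ⟨((x, y), z), ?_, ?_⟩)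
      · have e : y + z - x = m := by omega
        have hxN : x ≤ N := by omega
        have hyN : y ≤ N := by omega
        have hzN : z ≤ N := by omega
        rw [Finset.mem_filter, mem_T]
        refine ⟨⟨mem_S.2 ⟨hxN, hx⟩, mem_S.2 ⟨hyN, hy⟩, mem_S.2 ⟨hzN, hz⟩, hxy, hyz⟩, ?_⟩
        show y + z - x ∈ Q
        rw [e]
        exact hm
      · show y + z - x = m
        omega
  calc Q.card ≤ _ := Finset.card_le_card h1
    _ ≤ _ := Finset.card_union_le _ _
    _ ≤ _ := by
      rw [card_S]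
      exact Nat.add_le_add_left Finset.card_image_le _

/-- The trivial bound. -/
theorem trivial_bound (N : ℕ) : 6 * N ≤ A N ^ 3 + 5 * A N := by
  have h1 := covering N (Finset.Icc 1 N) (fun m hm => Finset.mem_Icc.1 hm)
  have h2 := T_card (S N)
  rw [card_S] at h2
  have h3 : ((T (S N)).filter fun t => t.1.2 + t.2 - t.1.1 ∈ Finset.Icc 1 N).card ≤
      (T (S N)).card := Finset.card_filter_le _ _
  rw [Nat.card_Icc] at h1
  omega

/-- The wasted triples, whose values are larger than `N`. -/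
theorem waste (N : ℕ) :
    6 * N + 6 * ((T (S N)).filter fun t => N + t.1.1 < t.1.2 + t.2).card ≤ A N ^ 3 + 5 * A N := by
  have h1 := covering N (Finset.Icc 1 N) (fun m hm => Finset.mem_Icc.1 hm)
  have h2 := T_card (S N)
  rw [card_S] at h2
  rw [Nat.card_Icc] at h1
  have h3 : ((T (S N)).filter fun t => N + t.1.1 < t.1.2 + t.2).card +
      ((T (S N)).filter fun t => t.1.2 + t.2 - t.1.1 ∈ Finset.Icc 1 N).card ≤ (T (S N)).card := by
    rw [← Finset.card_union_of_disjoint]
    · refine Finset.card_le_card fun t ht => ?_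
      rcases Finset.mem_union.1 ht with h | h
      · exact (Finset.mem_filter.1 h).1
      · exact (Finset.mem_filter.1 h).1
    · rw [Finset.disjoint_left]
      intro t ha hb
      have h4 := (Finset.mem_filter.1 ha).2
      have h5 := (Finset.mem_filter.1 hb).2
      rw [Finset.mem_Icc] at h5
      omega
  omega

theorem A_mono : Monotone A := by
  intro M N h
  rw [← card_S, ← card_S]
  refine Finset.card_le_card fun a ha => ?_
  rw [mem_S] at ha ⊢
  exact ⟨ha.1.trans h, ha.2⟩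

end Pool.Agent.GSC
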