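import Pool.Agent.GSC.Near

/-!
Numerical data: upper bounds for the cube roots of `j / 100` and lower bounds for those of
`6 j / 100`.
-/

set_option autoImplicit false
set_option maxRecDepth 100000

namespace Pool.Agent.GSC

/-- The digits in base `10 ^ 6` are `10 ^ 5` times upper bounds for the cube roots of
`(j + 1) / 100`. -/
def bigA : ℕ :=
  99669099333098994098652098309097962097614097263096909096553096194095832095468095101094730094358093982093603093221092835092447092055091660091262090860090454090045089632089215088794088369087940087507087069086627086181085730085274084813084347083875083399082917082429081935081436080930080418079899079373078840078300077753077197076634076062075481074892074293073684073064072434071793071141070476069798069107068402067682066946066194065424064636063828062999062147061272060371059442058483057491056465055399054291053135051927050660049326047916046418044816043091041215039150036842034201031074027146021546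

/-- The digits in base `10 ^ 6` are `10 ^ 5` times lower bounds for the cube roots of
`6 (j + 1) / 100`. -/
def bigG : ℕ :=
  180491179875179255178630178001177368176730176087175439174787174130173468172801172128171451170768170079169385168685167979167267166549165825165095164358163614162863162106161341160569159790159002158207157404156593155773154944154107153260152404151538150662149775148879147971147052146121145178144223143255142274141279140269139245138206137151136080134991133884132759131614130450129264128055126824125568124287122978121641120274118876117443115975114468112921111330109693108005106262104461102595100658098645096545094350092047089623087061084338081427078291074882071131066935062136056451049310039126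

def aN (j : ℕ) : ℕ := bigA / 10 ^ (6 * j) % 10 ^ 6

def gN (m : ℕ) : ℕ := if m ≤ 100 then 0 else bigG / 10 ^ (6 * (m - 101)) % 10 ^ 6

def sumZ (f : ℕ → ℤ) : ℕ → ℤ
  | 0 => 0
  | n + 1 => sumZ f n + f n

def sZ (i : ℕ) : ℤ :=
  gN (i + 99) * 10 ^ 5 - sumZ (fun j => aN j * (gN (i + j + 1) - gN (i + j))) 99

def eZ : ℤ := sZ 99 * 10 ^ 5 - sumZ (fun i => aN i * (sZ (i + 1) - sZ i)) 99

theorem fact1 : ∀ m < 198, gN m ≤ gN (m + 1) := by decide +kernel

theorem fact2 : ∀ j < 99, 10001 * (j + 1) * 10 ^ 15 ≤ aN j ^ 3 * 10 ^ 6 := by decide +kernel

theorem fact3 : ∀ d < 98, gN (101 + d) ^ 3 * 10 ^ 6 + 10 ^ 17 ≤ 6 * (d + 1) * 10 ^ 19 := by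
  decide +kernel

theorem fact4 : ∀ i < 99, sZ i ≤ sZ (i + 1) := by decide +kernel

theorem fact5 : 116600000000000 ≤ eZ := by decide +kernel

theorem fact6 : ∀ d < 98, gN (101 + d) ≤ 200000 := by decide +kernel

end Pool.Agent.GSC
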