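import Pool.Agent.GSC.Near

/-!
The lower bound `A(N)³ ≥ (6 + 1 / 100000) N` for all large `N`.
-/

set_option autoImplicit false

namespace Pool.Agent.GSC

/-- The pairs `x ≤ y`. -/
def Pd (s : Finset ℕ) : Finset (ℕ × ℕ) := (s ×ˢ s).filter fun t => t.1 ≤ t.2

theorem mem_Pd {s : Finset ℕ} {t : ℕ × ℕ} : t ∈ Pd s ↔ t.1 ∈ s ∧ t.2 ∈ s ∧ t.1 ≤ t.2 := by
  simp [Pd, and_assoc]

theorem Pd_card (s : Finset ℕ) : 2 * (Pd s).card = s.card ^ 2 + s.card := by
  have h1 : Pd s = P s ∪ s.image fun x => (x, x) := by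
    ext ⟨x, y⟩
    simp only [mem_Pd, Finset.mem_union, mem_P, Finset.mem_image, Prod.mk.injEq]
    constructor
    · rintro ⟨hx, hy, h⟩
      rcases Nat.lt_or_ge x y with h1 | h1
      · exact Or.inl ⟨hx, hy, h1⟩
      · exact Or.inr ⟨x, hx, rfl, le_antisymm h h1⟩
    · rintro (⟨hx, hy, h⟩ | ⟨z, hz, rfl, rfl⟩)
      · exact ⟨hx, hy, h.le⟩
      · exact ⟨hz, hz, le_rfl⟩
  have h2 : (Pd s).card = (P s).card + s.card := by
    rw [h1, Finset.card_union_of_disjoint, Finset.card_image_of_injective]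
    · intro a b hab
      simpa using hab
    · rw [Finset.disjoint_left]
      rintro ⟨x, y⟩ h3 h4
      rw [mem_P] at h3
      simp only [Finset.mem_image, Prod.mk.injEq] at h4
      obtain ⟨z, _, rfl, rfl⟩ := h4
      exact lt_irrefl _ h3.2.2
  have h3 := P_card s
  omega

theorem S_mono {M N : ℕ} (h : M ≤ N) : S M ⊆ S N := by
  intro a ha
  rw [mem_S] at ha ⊢
  exact ⟨ha.1.trans h, ha.2⟩

theorem mem_sdiff_S {M N a : ℕ} : a ∈ S N \ S M ↔ a ≤ N ∧ M < a ∧ a ∈ Set.range greedy := by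
  rw [Finset.mem_sdiff, mem_S, mem_S]
  constructor
  · rintro ⟨⟨h1, h2⟩, h3⟩
    refine ⟨h1, ?_, h2⟩
    by_contra h4
    exact h3 ⟨not_lt.1 h4, h2⟩
  · rintro ⟨h1, h2, h3⟩
    exact ⟨⟨h1, h3⟩, fun h4 => absurd h4.1 (not_le.2 h2)⟩

theorem card_sdiff_S {M N : ℕ} (h : M ≤ N) : (S N \ S M).card + A M = A N := by
  have := Finset.card_sdiff_add_card_eq_card (S_mono h)
  rwa [card_S, card_S] at this

/-- Many wasted triples, if there are many terms in the upper half. -/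
theorem waste_high (N : ℕ) :
    A (20 * N / 10000) * (P (S N \ S (5010 * N / 10000))).card ≤
      ((T (S N)).filter fun t => N + t.1.1 < t.1.2 + t.2).card := by
  rw [← card_S, ← Finset.card_product,
    ← Finset.card_image_of_injective (f := fun p : ℕ × (ℕ × ℕ) => ((p.1, p.2.1), p.2.2))]
  · refine Finset.card_le_card fun t ht => ?_
    rw [Finset.mem_image] at ht
    obtain ⟨⟨x, y, z⟩, h1, rfl⟩ := ht
    rw [Finset.mem_product, mem_P, mem_S] at h1
    simp only [mem_sdiff_S] at h1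
    obtain ⟨⟨h2, h3⟩, ⟨h4, h5, h6⟩, ⟨h7, h8, h9⟩, h10⟩ := h1
    rw [Finset.mem_filter, mem_T]
    simp only [mem_S]
    refine ⟨⟨⟨by omega, h3⟩, ⟨h4, h6⟩, ⟨h7, h9⟩, by omega, h10.le⟩, by omega⟩
  · rintro ⟨x, y, z⟩ ⟨x', y', z'⟩ h
    simp only [Prod.mk.injEq] at h ⊢
    tauto

/-- The pairs which can cover an element of the last quarter without a term of the upper half. -/
noncomputable def R (N : ℕ) : Finset (ℕ × ℕ) :=
  (Pd (S (5010 * N / 10000) \ S (2505 * N / 10000))).filter fun t => 7515 * N / 20000 < t.2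

theorem R_card (N : ℕ) :
    (R N).card + (Pd (S (7515 * N / 20000) \ S (2505 * N / 10000))).card ≤
      (Pd (S (5010 * N / 10000) \ S (2505 * N / 10000))).card := by
  rw [← Finset.card_union_of_disjoint]
  · refine Finset.card_le_card fun t ht => ?_
    rcases Finset.mem_union.1 ht with h | h
    · exact (Finset.mem_filter.1 h).1
    · rw [mem_Pd, mem_sdiff_S, mem_sdiff_S] at h ⊢
      obtain ⟨⟨h1, h2, h3⟩, ⟨h4, h5, h6⟩, h7⟩ := h
      exact ⟨⟨by omega, h2, h3⟩, ⟨by omega, h5, h6⟩, h7⟩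
  · rw [Finset.disjoint_left]
    intro t h1 h2
    have h3 := (Finset.mem_filter.1 h1).2
    rw [mem_Pd, mem_sdiff_S, mem_sdiff_S] at h2
    omega

/-- The covering of the last quarter. -/
theorem last_quarter (N : ℕ) :
    N - 7515 * N / 10000 ≤ A N + ((P (S N)).card * (S N \ S (5010 * N / 10000)).card +
      A (2505 * N / 10000) * (R N).card) := by
  have h1 := covering N (Finset.Ioc (7515 * N / 10000) N) (fun m hm => by
    rw [Finset.mem_Ioc] at hm
    omega)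
  rw [Nat.card_Ioc] at h1
  refine h1.trans (Nat.add_le_add_left ?_ _)
  rw [← card_S (2505 * N / 10000), ← Finset.card_product, ← Finset.card_product]
  rw [← Finset.card_image_of_injective (f := fun p : ℕ × (ℕ × ℕ) => ((p.1, p.2.1), p.2.2))
    (S (2505 * N / 10000) ×ˢ R N)]
  · refine le_trans (Finset.card_le_card fun t ht => ?_) (Finset.card_union_le _ _)
    obtain ⟨⟨x, y⟩, z⟩ := t
    rw [Finset.mem_filter, mem_T] at ht
    simp only [mem_S, Finset.mem_Ioc] at ht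
    obtain ⟨⟨⟨h2, h3⟩, ⟨h4, h5⟩, ⟨h6, h7⟩, h8, h9⟩, h10, h11⟩ := ht
    rw [Finset.mem_union]
    rcases Nat.lt_or_ge (5010 * N / 10000) z with h12 | h12
    · left
      rw [Finset.mem_product, mem_P, mem_S, mem_S, mem_sdiff_S]
      exact ⟨⟨⟨h2, h3⟩, ⟨h4, h5⟩, h8⟩, h6, h12, h7⟩
    · right
      rw [Finset.mem_image]
      refine ⟨(x, (y, z)), ?_, rfl⟩
      rw [Finset.mem_product, mem_S]
      refine ⟨⟨?_, h3⟩, ?_⟩
      · show x ≤ 2505 * N / 10000
        omega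
      · refine Finset.mem_filter.2 ⟨?_, ?_⟩
        · rw [mem_Pd, mem_sdiff_S, mem_sdiff_S]
          exact ⟨⟨by show y ≤ _; omega, by show _ < y; omega, h5⟩,
            ⟨h12, by show _ < z; omega, h7⟩, h9⟩
        · show 7515 * N / 20000 < z
          omega
  · rintro ⟨x, y, z⟩ ⟨x', y', z'⟩ h
    simp only [Prod.mk.injEq] at h ⊢
    tauto

/-- The final inequality. -/
theorem numeric {t n b u v h : ℝ} (ht : 100000 ≤ t) (hu0 : 1.1454 * t ≤ u) (hv0 : 1.3112 * t ≤ v)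
    (huv : u ≤ v)
    (hvb : v ≤ b) (hh0 : 0 ≤ h) (hbn : b + h = n) (hn : n ≤ 1.81713 * t) (hh : h ≤ 0.0039 * t)
    (hfin : 2 * 0.2485 * t ^ 3 ≤ 2 * n + n ^ 2 * h + u * ((b - u) ^ 2 + (b - u) - ((v - u) ^ 2 + (v - u)))) :
    False := by
  have ht0 : 0 < t := by linarith
  have hb0 : 1.3112 * t ≤ b := hv0.trans hvb
  have e1 : u * ((b - u) ^ 2 + (b - u) - ((v - u) ^ 2 + (v - u))) =
      (b - v) * (u * (b + v - 2 * u)) + u * (b - v) := by ring
  have h1 : u * (b + v - 2 * u) ≤ 1.1454 * t * (b + v - 2 * (1.1454 * t)) := by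
    have : 0 ≤ (u - 1.1454 * t) * (2 * (u + 1.1454 * t) - (b + v)) :=
      mul_nonneg (by linarith) (by linarith)
    linarith
  have h2 := mul_le_mul_of_nonneg_left h1 (by linarith : 0 ≤ b - v)
  have e2 : (b - v) * (1.1454 * t * (b + v - 2 * (1.1454 * t))) =
      1.1454 * t * ((b - 1.1454 * t) ^ 2 - (v - 1.1454 * t) ^ 2) := by ring
  have h3 : (1.3112 * t - 1.1454 * t) ^ 2 ≤ (v - 1.1454 * t) ^ 2 :=
    pow_le_pow_left₀ (by linarith) (by linarith) 2
  have h4 : (b - 1.1454 * t) ^ 2 ≤ (1.81713 * t - h - 1.1454 * t) ^ 2 :=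
    pow_le_pow_left₀ (by linarith) (by linarith) 2
  have h5 : 1.1454 * t * ((b - 1.1454 * t) ^ 2 - (v - 1.1454 * t) ^ 2) ≤
      1.1454 * t * ((1.81713 * t - h - 1.1454 * t) ^ 2 - (1.3112 * t - 1.1454 * t) ^ 2) :=
    mul_le_mul_of_nonneg_left (by linarith) (by positivity)
  have hn0 : 0 ≤ n := by linarith
  have h6 : n ^ 2 * h ≤ (1.81713 * t) ^ 2 * h :=
    mul_le_mul_of_nonneg_right (pow_le_pow_left₀ hn0 hn 2) hh0
  have h7 : u * (b - v) ≤ 2 * t * t := by
    exact mul_le_mul (by linarith) (by linarith) (by linarith) (by positivity)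
  have h8 : h ^ 2 ≤ (0.0039 * t) ^ 2 := pow_le_pow_left₀ hh0 hh 2
  have h9 : t * h ^ 2 ≤ t * (0.0039 * t) ^ 2 := mul_le_mul_of_nonneg_left h8 ht0.le
  have h10 : t ^ 2 * h ≤ t ^ 2 * (0.0039 * t) := mul_le_mul_of_nonneg_left hh (by positivity)
  have h11 : 100000 * t ^ 2 ≤ t ^ 3 := by
    calc 100000 * t ^ 2 ≤ t * t ^ 2 := mul_le_mul_of_nonneg_right ht (by positivity)
      _ = _ := by ring
  have h12 : 100000 * t ≤ t ^ 2 := by
    calc 100000 * t ≤ t * t := mul_le_mul_of_nonneg_right ht ht0.le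
      _ = _ := by ring
  have h13 : 0 < t ^ 3 := by positivity
  have h14 : 2 * 0.2485 * t ^ 3 ≤ 2 * n + (1.81713 * t) ^ 2 * h + 1.1454 * t *
      ((1.81713 * t - h - 1.1454 * t) ^ 2 - (1.3112 * t - 1.1454 * t) ^ 2) + 2 * t * t := by
    linarith
  have e3 : (1.81713 * t) ^ 2 * h + 1.1454 * t *
      ((1.81713 * t - h - 1.1454 * t) ^ 2 - (1.3112 * t - 1.1454 * t) ^ 2) =
      (1.1454 * (0.67173 ^ 2 - 0.1658 ^ 2)) * t ^ 3 +
      (1.81713 ^ 2 - 2 * 1.1454 * 0.67173) * (t ^ 2 * h) + 1.1454 * (t * h ^ 2) := by ring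
  have e4 : t ^ 2 * (0.0039 * t) = 0.0039 * t ^ 3 := by ring
  have e5 : t * (0.0039 * t) ^ 2 = 0.0039 ^ 2 * t ^ 3 := by ring
  rw [e4] at h10
  rw [e5] at h9
  norm_num at e3
  linarith

/-- `A(N)³ ≥ (6 + 1 / 100000) N` for all `N ≥ 10¹⁵`. -/
theorem liminf_bound {N : ℕ} (hN : 10 ^ 15 ≤ N) :
    (6 + 1 / 100000 : ℝ) * N ≤ (A N : ℝ) ^ 3 := by
  by_contra hcon
  push Not at hcon
  obtain ⟨t, ht⟩ : ∃ t : ℝ, t = (N : ℝ) ^ (1 / 3 : ℝ) := ⟨_, rfl⟩
  have hN0 : (0 : ℝ) ≤ N := Nat.cast_nonneg N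
  have ht3 : t ^ 3 = N := by
    rw [ht, ← Real.rpow_natCast, ← Real.rpow_mul hN0]
    norm_num
  have ht0 : 0 ≤ t := by rw [ht]; exact Real.rpow_nonneg hN0 _
  have ht5 : 100000 ≤ t := by
    by_contra hc
    push Not at hc
    have h1 : t ^ 3 < 100000 ^ 3 := pow_lt_pow_left₀ hc ht0 (by norm_num)
    have h2 : ((10 ^ 15 : ℕ) : ℝ) ≤ N := by exact_mod_cast hN
    rw [ht3] at h1
    norm_num at h1 h2
    linarith
  have ht1 : 1 ≤ t := by linarith
  have htp : 0 < t := by linarith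
  have hδt : 16 ≤ (1 / 1000000 : ℝ) * t ^ 2 := by nlinarith
  have hu := low (N := N) (K := 10000) (j := 2505) (g := 1.1454) (by norm_num) ht1 ht3
    (δ := 1 / 1000000) (by norm_num) hδt (by norm_num) (by norm_num) (by norm_num)
  have hv := low (N := N) (K := 20000) (j := 7515) (g := 1.3112) (by norm_num) ht1 ht3
    (δ := 1 / 1000000) (by norm_num) hδt (by norm_num) (by norm_num) (by norm_num)
  have he := low (N := N) (K := 10000) (j := 20) (g := 0.2289) (by norm_num) ht1 ht3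
    (δ := 1 / 1000000) (by norm_num) hδt (by norm_num) (by norm_num) (by norm_num)
  have hw1 := waste N
  have hw2 := waste_high N
  have hq := last_quarter N
  have hR := R_card N
  have hP1 := P_card (S N \ S (5010 * N / 10000))
  have hP2 := P_card (S N)
  have hPd1 := Pd_card (S (7515 * N / 20000) \ S (2505 * N / 10000))
  have hPd2 := Pd_card (S (5010 * N / 10000) \ S (2505 * N / 10000))
  have hc1 := card_sdiff_S (N := N) (M := 5010 * N / 10000) (by omega)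
  have hc2 := card_sdiff_S (N := 7515 * N / 20000) (M := 2505 * N / 10000) (by omega)
  have hc3 := card_sdiff_S (N := 5010 * N / 10000) (M := 2505 * N / 10000) (by omega)
  have hm1 : A (2505 * N / 10000) ≤ A (7515 * N / 20000) := A_mono (by omega)
  have hm2 : A (7515 * N / 20000) ≤ A (5010 * N / 10000) := A_mono (by omega)
  rw [card_S] at hP2
  have hq2 : 2485 * N ≤ 10000 * (N - 7515 * N / 10000) := by omega
  generalize A (2505 * N / 10000) = u at *
  generalize A (7515 * N / 20000) = v at *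
  generalize A (5010 * N / 10000) = b at *
  generalize A (20 * N / 10000) = e at *
  generalize (S N \ S (5010 * N / 10000)).card = h at *
  generalize (S (7515 * N / 20000) \ S (2505 * N / 10000)).card = d1 at *
  generalize (S (5010 * N / 10000) \ S (2505 * N / 10000)).card = d2 at *
  generalize (P (S N \ S (5010 * N / 10000))).card = p1 at *
  generalize (P (S N)).card = p2 at *
  generalize (Pd (S (7515 * N / 20000) \ S (2505 * N / 10000))).card = q1 at *
  generalize (Pd (S (5010 * N / 10000) \ S (2505 * N / 10000))).card = q2 at *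
  generalize (R N).card = r at *
  generalize ((T (S N)).filter fun t => N + t.1.1 < t.1.2 + t.2).card = w at *
  generalize A N = n at *
  generalize N - 7515 * N / 10000 = m at *
  -- everything in the real numbers
  have hw1R : (6 : ℝ) * N + 6 * w ≤ (n : ℝ) ^ 3 + 5 * n := by exact_mod_cast hw1
  have hw2R : (e : ℝ) * p1 ≤ w := by exact_mod_cast hw2
  have hqR : (m : ℝ) ≤ n + (p2 * h + u * r) := by exact_mod_cast hq
  have hRR : (r : ℝ) + q1 ≤ q2 := by exact_mod_cast hR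
  have hP1R : (2 : ℝ) * p1 + h = (h : ℝ) ^ 2 := by exact_mod_cast hP1
  have hP2R : (2 : ℝ) * p2 + n = (n : ℝ) ^ 2 := by exact_mod_cast hP2
  have hPd1R : (2 : ℝ) * q1 = (d1 : ℝ) ^ 2 + d1 := by exact_mod_cast hPd1
  have hPd2R : (2 : ℝ) * q2 = (d2 : ℝ) ^ 2 + d2 := by exact_mod_cast hPd2
  have hc1R : (h : ℝ) + b = n := by exact_mod_cast hc1
  have hc2R : (d1 : ℝ) + u = v := by exact_mod_cast hc2
  have hc3R : (d2 : ℝ) + u = b := by exact_mod_cast hc3
  have hm1R : (u : ℝ) ≤ v := by exact_mod_cast hm1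
  have hm2R : (v : ℝ) ≤ b := by exact_mod_cast hm2
  have hq2R : (2485 : ℝ) * N ≤ 10000 * m := by exact_mod_cast hq2
  have hn0 : (0 : ℝ) ≤ n := Nat.cast_nonneg n
  have hh0 : (0 : ℝ) ≤ h := Nat.cast_nonneg h
  have hu0 : (0 : ℝ) ≤ u := Nat.cast_nonneg u
  rw [← ht3] at hw1R hq2R hcon
  have hn : (n : ℝ) ≤ 1.81713 * t := by
    have h1 : (n : ℝ) ^ 3 ≤ (1.81713 * t) ^ 3 := by
      calc (n : ℝ) ^ 3 ≤ (6 + 1 / 100000) * t ^ 3 := hcon.le
        _ ≤ 1.81713 ^ 3 * t ^ 3 := mul_le_mul_of_nonneg_right (by norm_num) (by positivity)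
        _ = _ := by ring
    exact le_of_pow_le_pow_left₀ (by norm_num) (by positivity) h1
  have h12 : 100000 * t ≤ t ^ 2 := by
    calc 100000 * t ≤ t * t := mul_le_mul_of_nonneg_right ht5 ht0
      _ = _ := by ring
  have h11 : 100000 * t ^ 2 ≤ t ^ 3 := by
    calc 100000 * t ^ 2 ≤ t * t ^ 2 := mul_le_mul_of_nonneg_right ht5 (by positivity)
      _ = _ := by ring
  have hh : (h : ℝ) ≤ 0.0039 * t := by
    by_contra hc
    push Not at hc
    have h1 : 0.0039 * t * (0.0039 * t - 1) ≤ (h : ℝ) * (h - 1) :=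
      mul_le_mul hc.le (by linarith) (by linarith) hh0
    have h2 : 0.2289 * t * (0.0039 * t * (0.0039 * t - 1)) ≤ e * ((h : ℝ) * (h - 1)) :=
      mul_le_mul he h1 (mul_nonneg (by positivity) (by linarith)) (Nat.cast_nonneg e)
    have h3 : (e : ℝ) * (h * (h - 1)) = 2 * (e * p1) := by
      have : (h : ℝ) * (h - 1) = 2 * p1 := by linarith
      rw [this]; ring
    have h4 : 0.2289 * t * (0.0039 * t * (0.0039 * t - 1)) =
        (0.2289 * 0.0039 ^ 2) * t ^ 3 - (0.2289 * 0.0039) * t ^ 2 := by ring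
    rw [h3, h4] at h2
    norm_num at h2
    linarith
  refine numeric (t := t) (n := n) (b := b) (u := u) (v := v) (h := h) ht5 hu hv hm1R hm2R hh0
    (by linarith) hn hh ?_
  have e1 : (2 : ℝ) * (u * r) ≤ u * ((d2 : ℝ) ^ 2 + d2 - (d1 ^ 2 + d1)) := by
    have : (2 : ℝ) * r ≤ (d2 : ℝ) ^ 2 + d2 - (d1 ^ 2 + d1) := by linarith
    calc (2 : ℝ) * (u * r) = u * (2 * r) := by ring
      _ ≤ _ := mul_le_mul_of_nonneg_left this hu0
  have e2 : (2 : ℝ) * (p2 * h) ≤ (n : ℝ) ^ 2 * h := by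
    have : (2 : ℝ) * p2 ≤ (n : ℝ) ^ 2 := by linarith
    calc (2 : ℝ) * (p2 * h) = 2 * p2 * h := by ring
      _ ≤ _ := mul_le_mul_of_nonneg_right this hh0
  have e3 : (d2 : ℝ) = b - u := by linarith
  have e4 : (d1 : ℝ) = v - u := by linarith
  rw [e3, e4] at e1
  linarith

end Pool.Agent.GSC
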