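import Pool.Agent.GSC.Abel

/-!
The number of the wasted triples from below, by numerical data.
-/

set_option autoImplicit false

namespace Pool.Agent.GSC

/-- The inner sums. -/
noncomputable def Sm (k : ℕ) (g α : ℕ → ℝ) (i : ℕ) : ℝ :=
  g (i + k) - ∑ j ∈ Finset.range k, α j * (g (i + j + 1) - g (i + j))

/-- The outer sum. -/
noncomputable def Em (k : ℕ) (g α : ℕ → ℝ) : ℝ :=
  Sm k g α k - ∑ i ∈ Finset.range k, α i * (Sm k g α (i + 1) - Sm k g α i)

theorem waste_num {k N : ℕ} (hN : 0 < N) (g α : ℕ → ℝ) {t : ℝ} (ht : 0 < t)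
    (h1 : ∀ m ≤ 2 * k, g m * t ≤ A ((m - (k + 1)) * N / (k + 1)))
    (h2 : ∀ j < k, (A ((j + 1) * N / (k + 1)) : ℝ) ≤ α j * A N)
    (h3 : ∀ m < 2 * k, g m ≤ g (m + 1))
    (h4 : ∀ i < k, Sm k g α i ≤ Sm k g α (i + 1)) :
    Em k g α * t * (A N : ℝ) ^ 2 ≤ 2 * (W N).card := by
  have hK : 1 ≤ k + 1 := by omega
  have hc : ∀ j < k, (((S N).filter fun y => idx (k + 1) N y ≤ j).card : ℝ) ≤
      α j * (S N).card := by
    intro j hj
    have h5 := h2 j hj
    rw [card_S]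
    rw [← card_cells hK (by omega : j + 1 ≤ k + 1)] at h5
    refine le_trans (le_of_eq ?_) h5
    congr 2
    refine Finset.filter_congr fun y hy => ?_
    exact idx_le_iff hK (one_le_of_mem_S hy) hN
  have hf : ∀ y ∈ S N, idx (k + 1) N y ≤ k := by
    intro y hy
    have := (idx_le hK (one_le_of_mem_S hy) (mem_S.1 hy).1).1
    omega
  have hin : ∀ y ∈ S N, Sm k g α (idx (k + 1) N y) * t * A N ≤
      ∑ z ∈ S N, (A ((idx (k + 1) N y + idx (k + 1) N z - (k + 1)) * N / (k + 1)) : ℝ) := by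
    intro y hy
    have hi := hf y hy
    have h6 := abel (S N) (fun z => idx (k + 1) N z) k hf
      (fun j => g (idx (k + 1) N y + j)) α (fun j hj => h3 _ (by omega)) hc
    rw [card_S] at h6
    have h7 : ∑ z ∈ S N, g (idx (k + 1) N y + idx (k + 1) N z) * t ≤
        ∑ z ∈ S N, (A ((idx (k + 1) N y + idx (k + 1) N z - (k + 1)) * N / (k + 1)) : ℝ) := by
      refine Finset.sum_le_sum fun z hz => h1 _ ?_
      have := hf z hz
      omega
    rw [← Finset.sum_mul] at h7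
    refine le_trans ?_ h7
    have h8 := mul_le_mul_of_nonneg_right h6 ht.le
    refine le_trans (le_of_eq ?_) h8
    rw [Sm]
    ring
  have hout := abel (S N) (fun z => idx (k + 1) N z) k hf (Sm k g α) α h4 hc
  rw [card_S] at hout
  have h9 : (∑ y ∈ S N, ∑ z ∈ S N,
      (A ((idx (k + 1) N y + idx (k + 1) N z - (k + 1)) * N / (k + 1)) : ℝ)) ≤ 2 * (W N).card := by
    exact_mod_cast waste_cells hK
  refine le_trans ?_ h9
  refine le_trans ?_ (Finset.sum_le_sum hin)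
  rw [← Finset.sum_mul, ← Finset.sum_mul]
  have h10 : (0 : ℝ) ≤ t * A N := by positivity
  have h11 := mul_le_mul_of_nonneg_right hout h10
  refine le_trans (le_of_eq ?_) (h11.trans (le_of_eq ?_))
  · rw [Em]; ring
  · ring

/-- A lower bound for the number of the terms. -/
theorem low {N j K : ℕ} (hK : 1 ≤ K) {t g δ : ℝ} (ht : 1 ≤ t) (hN : t ^ 3 = N) (hδ : 0 < δ)
    (hδt : 16 ≤ δ * t ^ 2) (hg0 : 0 ≤ g) (hg2 : g ≤ 2) (hg : g ^ 3 + δ ≤ 6 * j / K) :
    g * t ≤ A (j * N / K) := by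
  by_contra hcon
  push Not at hcon
  have hK0 : (0 : ℝ) < K := by exact_mod_cast hK
  have h1 := trivial_bound (j * N / K)
  have h2 : (6 : ℝ) * ((j * N / K : ℕ) : ℝ) ≤ (A (j * N / K) : ℝ) ^ 3 + 5 * A (j * N / K) := by
    exact_mod_cast h1
  have h3 : (j : ℝ) * N / K < ((j * N / K : ℕ) : ℝ) + 1 := by
    have h4 := Nat.lt_succ_floor ((j : ℝ) * N / K)
    rw [show ((j : ℝ) * N / K) = (((j * N : ℕ) : ℝ) / (K : ℝ)) by push_cast; rfl,
      Nat.floor_div_eq_div] at h4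
    rw [show ((j : ℝ) * N / K) = (((j * N : ℕ) : ℝ) / (K : ℝ)) by push_cast; rfl]
    exact_mod_cast h4
  set a : ℝ := (A (j * N / K) : ℝ) with ha
  have ha0 : 0 ≤ a := by rw [ha]; positivity
  have h5 : a ^ 3 ≤ (g * t) ^ 3 := pow_le_pow_left₀ ha0 hcon.le 3
  have h6 : (g * t) ^ 3 = g ^ 3 * t ^ 3 := by ring
  have h7 : g ^ 3 * t ^ 3 + δ * t ^ 3 ≤ 6 * ((j : ℝ) * N / K) := by
    have h8 := mul_le_mul_of_nonneg_right hg (by positivity : (0 : ℝ) ≤ t ^ 3)
    rw [← hN]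
    calc g ^ 3 * t ^ 3 + δ * t ^ 3 = (g ^ 3 + δ) * t ^ 3 := by ring
      _ ≤ 6 * j / K * t ^ 3 := h8
      _ = _ := by ring
  have h9 : a ≤ 2 * t := by nlinarith
  have h10 : 16 * t ≤ δ * t ^ 3 := by
    have := mul_le_mul_of_nonneg_right hδt (by linarith : (0 : ℝ) ≤ t)
    calc 16 * t ≤ δ * t ^ 2 * t := this
      _ = _ := by ring
  nlinarith

/-- An upper bound for the number of the terms from the near-maximality at `N`. -/
theorem high {N M j K : ℕ} (hK : 1 ≤ K) (hN : 0 < N) (hM : M = (j + 1) * N / K) {α ε : ℝ}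
    (hα0 : 0 ≤ α) (hε : 0 ≤ ε)
    (hα : (1 + ε) * (j + 1) / K ≤ α ^ 3)
    (h : (A M : ℝ) ^ 3 * N ≤ (1 + ε) * (A N : ℝ) ^ 3 * M) : (A M : ℝ) ≤ α * A N := by
  have hK0 : (0 : ℝ) < K := by exact_mod_cast hK
  have hN0 : (0 : ℝ) < N := by exact_mod_cast hN
  have h1 : (M : ℝ) * K ≤ (j + 1) * N := by
    have := Nat.div_mul_le_self ((j + 1) * N) K
    rw [← hM] at this
    exact_mod_cast this
  have h2 : (A M : ℝ) ^ 3 ≤ (α * A N) ^ 3 := by
    have h3 : (A M : ℝ) ^ 3 * (N * K) ≤ (α * A N) ^ 3 * (N * K) := by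
      calc (A M : ℝ) ^ 3 * (N * K) = (A M : ℝ) ^ 3 * N * K := by ring
        _ ≤ (1 + ε) * (A N : ℝ) ^ 3 * M * K := mul_le_mul_of_nonneg_right h hK0.le
        _ = (1 + ε) * (A N : ℝ) ^ 3 * (M * K) := by ring
        _ ≤ (1 + ε) * (A N : ℝ) ^ 3 * ((j + 1) * N) :=
          mul_le_mul_of_nonneg_left h1 (by positivity)
        _ = ((1 + ε) * (j + 1) / K) * ((A N : ℝ) ^ 3 * (N * K)) := by
          field_simp
        _ ≤ α ^ 3 * ((A N : ℝ) ^ 3 * (N * K)) := mul_le_mul_of_nonneg_right hα (by positivity)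
        _ = _ := by ring
    exact le_of_mul_le_mul_right h3 (by positivity)
  exact le_of_pow_le_pow_left₀ (by norm_num) (by positivity) h2

end Pool.Agent.GSC
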