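import Pool.Agent.GSC.Liminf

/-!
An upper bound for the counting function of the greedy Sidon sequence: windows of length `c N^(3/4)`.
-/

set_option autoImplicit false

namespace Pool.Agent.GSC

/-- Any two terms lie in some initial segment. -/
theorem mem_terms {a : ℕ} (h : a ∈ Set.range greedy) : ∃ k, ∀ l, k ≤ l → a ∈ terms l := by
  obtain ⟨j, rfl⟩ := h
  exact ⟨j, fun l hl => ⟨j, by omega, rfl⟩⟩

/-- The differences of the terms are pairwise distinct. -/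
theorem diff_inj {a b c d : ℕ} (ha : a ∈ Set.range greedy) (hb : b ∈ Set.range greedy)
    (hc : c ∈ Set.range greedy) (hd : d ∈ Set.range greedy) (hab : a < b) (h : b + c = d + a) :
    a = c ∧ b = d := by
  obtain ⟨k1, h1⟩ := mem_terms ha
  obtain ⟨k2, h2⟩ := mem_terms hb
  obtain ⟨k3, h3⟩ := mem_terms hc
  obtain ⟨k4, h4⟩ := mem_terms hd
  have hS := (step (k1 + k2 + k3 + k4)).1
  rcases hS b (h2 _ (by omega)) c (h3 _ (by omega)) d (h4 _ (by omega)) a (h1 _ (by omega)) h with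
    ⟨h5, h6⟩ | ⟨h5, h6⟩
  · exact ⟨h6.symm, h5⟩
  · omega

/-- The pairs of terms which share a window, counted with the number of windows. -/
theorem pairs_bound (N u : ℕ) : 2 * ∑ t ∈ P (S N), (u - (t.2 - t.1)) ≤ u * (u - 1) := by
  classical
  have h1 : ∑ t ∈ P (S N), (u - (t.2 - t.1)) ≤ ∑ d ∈ Finset.Ico 1 u, (u - d) := by
    have h2 : ∑ t ∈ P (S N), (u - (t.2 - t.1)) =
        ∑ t ∈ (P (S N)).filter (fun t => t.2 - t.1 < u), (u - (t.2 - t.1)) := by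
      rw [Finset.sum_filter]
      refine Finset.sum_congr rfl fun t _ => ?_
      split_ifs with h
      · rfl
      · omega
    rw [h2]
    have h3 : Set.InjOn (fun t : ℕ × ℕ => t.2 - t.1)
        ((P (S N)).filter (fun t => t.2 - t.1 < u) : Finset (ℕ × ℕ)) := by
      rintro ⟨a, b⟩ h4 ⟨c, d⟩ h5 h6
      simp only [Finset.coe_filter, mem_P, mem_S, Set.mem_ofPred_eq] at h4 h5 h6
      have := diff_inj h4.1.1.2 h4.1.2.1.2 h5.1.1.2 h5.1.2.1.2 h4.1.2.2 (by omega)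
      exact Prod.ext this.1 this.2
    rw [← Finset.sum_image (f := fun d => u - d) h3]
    refine Finset.sum_le_sum_of_subset fun d hd => ?_
    rw [Finset.mem_image] at hd
    obtain ⟨t, ht, rfl⟩ := hd
    rw [Finset.mem_filter, mem_P] at ht
    rw [Finset.mem_Ico]
    omega
  have h2 : ∀ v : ℕ, 2 * ∑ d ∈ Finset.Ico 1 v, (v - d) = v * (v - 1) := by
    intro v
    have h3 : ∑ d ∈ Finset.Ico 1 v, (v - d) = ∑ i ∈ Finset.range v, i := by
      rw [Finset.range_eq_Ico]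
      rcases Nat.eq_zero_or_pos v with rfl | hv
      · rfl
      · rw [Finset.sum_eq_sum_Ico_succ_bot hv, zero_add]
        refine Finset.sum_nbij' (fun d => v - d) (fun d => v - d) ?_ ?_ ?_ ?_ ?_ <;>
          intro d hd <;> simp only [Finset.mem_Ico] at hd ⊢ <;> omega
    rw [h3, mul_comm, Finset.sum_range_id_mul_two]
  calc _ ≤ 2 * ∑ d ∈ Finset.Ico 1 u, (u - d) := Nat.mul_le_mul_left 2 h1
    _ = _ := h2 u

open Classical in
/-- The number of the terms `a ≤ N` with `a ≤ j < a + u`. -/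
noncomputable def win (N u j : ℕ) : ℕ := ((S N).filter fun a => a ≤ j ∧ j < a + u).card

theorem win_eq {N u j : ℕ} (hu : u ≤ N) (hj : j ≤ u) : win N u j = A j := by
  classical
  rw [win, ← card_S]
  congr 1
  ext a
  rw [Finset.mem_filter, mem_S, mem_S]
  constructor
  · rintro ⟨⟨-, h1⟩, h2, -⟩
    exact ⟨h2, h1⟩
  · rintro ⟨h1, h2⟩
    have := one_le_of_mem h2
    exact ⟨⟨by omega, h2⟩, h1, by omega⟩

theorem win_sum (N u : ℕ) : ∑ j ∈ Finset.Ico 1 (N + u), win N u j = u * A N := by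
  classical
  have h1 : ∀ j, win N u j = ∑ a ∈ S N, if a ≤ j ∧ j < a + u then 1 else 0 := by
    intro j
    rw [win, Finset.card_filter]
  simp_rw [h1]
  rw [Finset.sum_comm]
  have h2 : ∀ a ∈ S N, ∑ j ∈ Finset.Ico 1 (N + u), (if a ≤ j ∧ j < a + u then 1 else 0) = u := by
    intro a ha
    rw [← Finset.card_filter]
    have h3 : (Finset.Ico 1 (N + u)).filter (fun j => a ≤ j ∧ j < a + u) = Finset.Ico a (a + u) := by
      have h4 := one_le_of_mem_S ha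
      have h5 := (mem_S.1 ha).1
      ext j
      simp only [Finset.mem_filter, Finset.mem_Ico]
      omega
    rw [h3, Nat.card_Ico]
    omega
  rw [Finset.sum_congr rfl h2, Finset.sum_const, card_S, smul_eq_mul, mul_comm]

theorem win_sq (N u : ℕ) :
    ∑ j ∈ Finset.Ico 1 (N + u), win N u j ^ 2 ≤ u * A N + u * (u - 1) := by
  classical
  have h1 : ∀ j, win N u j ^ 2 = win N u j +
      2 * ∑ t ∈ P (S N), if (t.1 ≤ j ∧ j < t.1 + u) ∧ (t.2 ≤ j ∧ j < t.2 + u) then 1 else 0 := by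
    intro j
    have h2 := P_card ((S N).filter fun a => a ≤ j ∧ j < a + u)
    have h3 : P ((S N).filter fun a => a ≤ j ∧ j < a + u) =
        (P (S N)).filter fun t => (t.1 ≤ j ∧ j < t.1 + u) ∧ (t.2 ≤ j ∧ j < t.2 + u) := by
      ext t
      rw [Finset.mem_filter, mem_P, mem_P, Finset.mem_filter, Finset.mem_filter]
      tauto
    rw [← Finset.card_filter, ← h3]
    unfold win
    omega
  simp_rw [h1]
  rw [Finset.sum_add_distrib, win_sum, ← Finset.mul_sum, Finset.sum_comm]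
  refine Nat.add_le_add_left (le_trans (Nat.mul_le_mul_left 2 (Finset.sum_le_sum fun t ht => ?_))
    (pairs_bound N u)) _
  rw [← Finset.card_filter]
  rw [mem_P] at ht
  calc _ ≤ (Finset.Ico t.2 (t.1 + u)).card := by
        refine Finset.card_le_card fun j hj => ?_
        rw [Finset.mem_filter] at hj
        rw [Finset.mem_Ico]
        exact ⟨hj.2.2.1, hj.2.1.2⟩
    _ = u - (t.2 - t.1) := by
        rw [Nat.card_Ico]
        omega

/-- The window inequality. -/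
theorem window_ineq {N u : ℕ} (s : ℕ) (hu : u ≤ N) (h1u : 1 ≤ u) (l : ℝ) :
    ∑ j ∈ Finset.Ioc s u, ((A j : ℝ) - l) ^ 2 ≤
      u * (A N : ℝ) + u * (u - 1) - 2 * l * (u * (A N : ℝ)) + l ^ 2 * (N + u - 1) := by
  have h1 : ∑ j ∈ Finset.Ioc s u, ((A j : ℝ) - l) ^ 2 ≤
      ∑ j ∈ Finset.Ico 1 (N + u), ((win N u j : ℝ) - l) ^ 2 := by
    rcases Nat.eq_zero_or_pos N with h0 | h0
    · omega
    · have h2 : ∑ j ∈ Finset.Ioc s u, ((A j : ℝ) - l) ^ 2 =
          ∑ j ∈ Finset.Ioc s u, ((win N u j : ℝ) - l) ^ 2 := by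
        refine Finset.sum_congr rfl fun j hj => ?_
        rw [win_eq hu (Finset.mem_Ioc.1 hj).2]
      rw [h2]
      refine Finset.sum_le_sum_of_subset_of_nonneg (fun j hj => ?_) (fun _ _ _ => sq_nonneg _)
      rw [Finset.mem_Ioc] at hj
      rw [Finset.mem_Ico]
      omega
  refine h1.trans ?_
  have h3 : ∑ j ∈ Finset.Ico 1 (N + u), ((win N u j : ℝ) - l) ^ 2 =
      (∑ j ∈ Finset.Ico 1 (N + u), (win N u j : ℝ) ^ 2) -
        2 * l * (∑ j ∈ Finset.Ico 1 (N + u), (win N u j : ℝ)) + l ^ 2 * (N + u - 1) := by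
    rw [Finset.mul_sum, ← Finset.sum_sub_distrib]
    have h4 : (l ^ 2 * (N + u - 1) : ℝ) = ∑ _j ∈ Finset.Ico 1 (N + u), l ^ 2 := by
      rw [Finset.sum_const, Nat.card_Ico, nsmul_eq_mul, Nat.cast_sub (by omega)]
      push_cast
      ring
    rw [h4, ← Finset.sum_add_distrib]
    refine Finset.sum_congr rfl fun j _ => ?_
    ring
  rw [h3]
  have h5 : (∑ j ∈ Finset.Ico 1 (N + u), (win N u j : ℝ)) = u * (A N : ℝ) := by
    exact_mod_cast win_sum N u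
  have h6 : (∑ j ∈ Finset.Ico 1 (N + u), (win N u j : ℝ) ^ 2) ≤ u * (A N : ℝ) + u * (u - 1) := by
    have h7 : (((∑ j ∈ Finset.Ico 1 (N + u), win N u j ^ 2 : ℕ)) : ℝ) ≤
        ((u * A N + u * (u - 1) : ℕ) : ℝ) := Nat.cast_le.2 (win_sq N u)
    rw [Nat.cast_add, Nat.cast_mul, Nat.cast_mul, Nat.cast_sub h1u] at h7
    push_cast at h7
    exact h7
  rw [h5]
  linarith

/-- The primitive. -/
noncomputable def Gp (l y : ℝ) : ℝ := y ^ 5 / 10 - l * y ^ 4 / 4 + l ^ 2 * y ^ 3 / 6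

theorem Gp_mono {l a b : ℝ} (h0 : 0 ≤ l) (h1 : l ≤ a) (h2 : a ≤ b) : Gp l a ≤ Gp l b := by
  obtain ⟨p, hp, rfl⟩ : ∃ p, 0 ≤ p ∧ a = l + p := ⟨a - l, by linarith, by ring⟩
  obtain ⟨r, hr, rfl⟩ : ∃ r, 0 ≤ r ∧ b = l + p + r := ⟨b - (l + p), by linarith, by ring⟩
  have h3 : Gp l (l + p + r) - Gp l (l + p) = 1/2*l^2*p^2*r + 1/2*l^2*p*r^2 + 1/6*l^2*r^3 + 1*l*p^3*r
      + 3/2*l*p^2*r^2 + 1*l*p*r^3 + 1/4*l*r^4 + 1/2*p^4*r + 1*p^3*r^2 + 1*p^2*r^3 + 1/2*p*r^4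
      + 1/10*r^5 := by
    unfold Gp
    ring
  have h4 : 0 ≤ Gp l (l + p + r) - Gp l (l + p) := by
    rw [h3]
    positivity
  linarith

theorem Gp_step {l a b x : ℝ} (h0 : 0 ≤ l) (h1 : l ≤ a) (h2 : a ≤ b) (h3 : b ^ 3 = a ^ 3 + 6)
    (h4 : b ≤ x) : Gp l b - Gp l a ≤ (x - l) ^ 2 := by
  have h5 : (b - l) ^ 2 ≤ (x - l) ^ 2 := by
    apply pow_le_pow_left₀ <;> linarith
  refine le_trans ?_ h5
  have h6 : (b - l) ^ 2 = (b - l) ^ 2 * (b ^ 3 - a ^ 3) / 6 := by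
    rw [h3]
    ring
  rw [h6]
  clear h3 h4 h5 h6
  obtain ⟨p, hp, rfl⟩ : ∃ p, 0 ≤ p ∧ a = l + p := ⟨a - l, by linarith, by ring⟩
  obtain ⟨r, hr, rfl⟩ : ∃ r, 0 ≤ r ∧ b = l + p + r := ⟨b - (l + p), by linarith, by ring⟩
  have h3 : (l + p + r - l) ^ 2 * ((l + p + r) ^ 3 - (l + p) ^ 3) / 6 -
      (Gp l (l + p + r) - Gp l (l + p)) = 1/2*l^2*p*r^2 + 1/3*l^2*r^3 + 1*l*p^2*r^2 + 1*l*p*r^3
      + 1/4*l*r^4 + 1/2*p^3*r^2 + 2/3*p^2*r^3 + 1/3*p*r^4 + 1/15*r^5 := by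
    unfold Gp
    ring
  have h4 : 0 ≤ (l + p + r - l) ^ 2 * ((l + p + r) ^ 3 - (l + p) ^ 3) / 6 -
      (Gp l (l + p + r) - Gp l (l + p)) := by
    rw [h3]
    positivity
  linarith

/-- The cube root of `6 j`. -/
noncomputable def cr (j : ℕ) : ℝ := (6 * j : ℝ) ^ (1 / 3 : ℝ)

theorem cr_nonneg (j : ℕ) : 0 ≤ cr j := Real.rpow_nonneg (by positivity) _

theorem cr_cube (j : ℕ) : cr j ^ 3 = 6 * j := by
  rw [cr, ← Real.rpow_natCast, ← Real.rpow_mul (by positivity)]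
  norm_num

theorem cr_le {j : ℕ} {x : ℝ} (hx : 0 ≤ x) (h : (6 * j : ℝ) ≤ x ^ 3) : cr j ≤ x := by
  rw [← cr_cube] at h
  exact le_of_pow_le_pow_left₀ (by norm_num) hx h

theorem le_cr {j : ℕ} {x : ℝ} (h : x ^ 3 ≤ 6 * j) : x ≤ cr j := by
  rw [← cr_cube] at h
  exact le_of_pow_le_pow_left₀ (by norm_num) (cr_nonneg j) h

theorem tele {s u : ℕ} (h : s ≤ u) (hs : 10 ^ 15 ≤ s) {l : ℝ} (h0 : 0 ≤ l) (hl : l ≤ cr s) :
    Gp l (cr u) - Gp l (cr s) ≤ ∑ j ∈ Finset.Ioc s u, ((A j : ℝ) - l) ^ 2 := by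
  induction u, h using Nat.le_induction with
  | base => simp
  | succ u hu ih =>
    rw [← Finset.insert_Ioc_right_eq_Ioc_add_one hu, Finset.sum_insert (by simp)]
    have h1 : cr u ≤ cr (u + 1) := by
      refine le_cr ?_
      rw [cr_cube]
      push_cast
      linarith
    have h2 : cr s ≤ cr u := by
      refine le_cr ?_
      rw [cr_cube]
      have : (s : ℝ) ≤ u := by exact_mod_cast hu
      linarith
    have h3 : cr (u + 1) ≤ (A (u + 1) : ℝ) := by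
      refine cr_le (Nat.cast_nonneg _) ?_
      have h4 := liminf_bound (N := u + 1) (by omega)
      have h5 : (0 : ℝ) ≤ ((u + 1 : ℕ) : ℝ) := Nat.cast_nonneg _
      nlinarith
    have h4 := Gp_step h0 (hl.trans h2) h1 (by rw [cr_cube, cr_cube]; push_cast; ring) h3
    linarith

/-- The polynomial inequality behind the bound. -/
theorem numeric_up {q : ℝ} (hq : 300000 ≤ q) :
    (1331 / 2058 : ℝ) ^ 2 * q ^ 6 + (1331 / 2058 * q) ^ 2 * (q ^ 4 + 1331 / 2058 * q ^ 3) <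
      Gp (1331 / 2058 * q) (11 / 7 * q - 1) - Gp (1331 / 2058 * q) (1331 / 2058 * q + 1) +
        (1331 / 2058 * q ^ 3 - 1) * (q ^ 2 + 809 / 1000 * q) * (2 * (1331 / 2058 * q) - 1) := by
  obtain ⟨p, hp, rfl⟩ : ∃ p, 0 ≤ p ∧ q = 300000 + p := ⟨q - 300000, by linarith, by ring⟩
  rw [← sub_pos]
  unfold Gp
  ring_nf
  positivity

theorem upper_bound {N : ℕ} (hN : 10 ^ 22 ≤ N) {q : ℝ} (hq0 : 0 ≤ q) (hq : q ^ 4 = N) :
    (A N : ℝ) ≤ q ^ 2 + 809 / 1000 * q := by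
  by_contra hcon
  rw [not_le] at hcon
  have hN' : (10 ^ 22 : ℝ) ≤ N := by exact_mod_cast hN
  have hq1 : 300000 ≤ q := by
    by_contra h
    rw [not_le] at h
    have : q ^ 4 < 300000 ^ 4 := pow_lt_pow_left₀ h hq0 (by norm_num)
    rw [hq] at this
    norm_num at this
    linarith
  have hnum := numeric_up hq1
  set l : ℝ := 1331 / 2058 * q with hl
  have hl1 : 180000 ≤ l := by rw [hl]; linarith
  -- the length of the windows
  set u : ℕ := ⌊1331 / 2058 * q ^ 3⌋₊ with hu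
  have hq3 : (300000 : ℝ) ^ 3 ≤ q ^ 3 := pow_le_pow_left₀ (by norm_num) hq1 3
  have hu1 : (u : ℝ) ≤ 1331 / 2058 * q ^ 3 := Nat.floor_le (by positivity)
  have hu2 : 1331 / 2058 * q ^ 3 - 1 < (u : ℝ) := Nat.sub_one_lt_floor _
  have huN : u ≤ N := by
    have : (u : ℝ) ≤ N := by
      rw [← hq]
      have : q ^ 4 = q * q ^ 3 := by ring
      nlinarith
    exact_mod_cast this
  -- the start
  set s : ℕ := ⌈l ^ 3 / 6⌉₊ with hs
  have hs1 : l ^ 3 / 6 ≤ s := Nat.le_ceil _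
  have hs2 : (s : ℝ) < l ^ 3 / 6 + 1 := Nat.ceil_lt_add_one (by positivity)
  have hl3 : (180000 : ℝ) ^ 3 ≤ l ^ 3 := pow_le_pow_left₀ (by norm_num) hl1 3
  have hs3 : 10 ^ 15 ≤ s := by
    have h1 : (185000 : ℝ) ≤ l := by rw [hl]; linarith
    have h2 : (185000 : ℝ) ^ 3 ≤ l ^ 3 := pow_le_pow_left₀ (by norm_num) h1 3
    have : (10 ^ 15 : ℝ) ≤ s := by norm_num at h2; linarith
    exact_mod_cast this
  have hsu : s ≤ u := by
    have : (s : ℝ) ≤ u := by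
      have h1 : l ^ 3 = (1331 / 2058) ^ 3 * q ^ 3 := by rw [hl]; ring
      rw [h1] at hs2
      norm_num at hs2 hq3 hu2
      linarith
    exact_mod_cast this
  have hl0 : 0 ≤ l := by linarith
  have h1 : l ≤ cr s := le_cr (by linarith)
  have h2 : cr s ≤ l + 1 := by
    refine cr_le (by linarith) ?_
    nlinarith
  have h3 : 11 / 7 * q - 1 ≤ cr u := by
    refine le_cr ?_
    have h4 : (11 / 7 * q - 1) ^ 3 = 6 * (1331 / 2058 * q ^ 3) - 3 * (11 / 7 * q) ^ 2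
        + 3 * (11 / 7 * q) - 1 := by ring
    rw [h4]
    nlinarith
  have h4 := tele hsu hs3 hl0 h1
  have h5 := window_ineq s huN (by omega) l
  have h6 := Gp_mono hl0 h1 h2
  have h7 : Gp l (11 / 7 * q - 1) ≤ Gp l (cr u) := Gp_mono hl0 (by rw [hl]; linarith) h3
  -- the main inequality
  have h8 : Gp l (11 / 7 * q - 1) - Gp l (l + 1) + u * (A N : ℝ) * (2 * l - 1) ≤
      (u : ℝ) ^ 2 + l ^ 2 * (N + u) := by
    have h9 : (0 : ℝ) ≤ u := Nat.cast_nonneg _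
    have h10 : 0 ≤ l ^ 2 := sq_nonneg _
    nlinarith
  have h9 : (1331 / 2058 * q ^ 3 - 1) * (q ^ 2 + 809 / 1000 * q) * (2 * l - 1) ≤
      u * (A N : ℝ) * (2 * l - 1) := by
    refine mul_le_mul_of_nonneg_right ?_ (by linarith)
    refine mul_le_mul hu2.le hcon.le (by positivity) (Nat.cast_nonneg _)
  have h10 : (u : ℝ) ^ 2 ≤ (1331 / 2058 : ℝ) ^ 2 * q ^ 6 := by
    calc (u : ℝ) ^ 2 ≤ (1331 / 2058 * q ^ 3) ^ 2 := pow_le_pow_left₀ (Nat.cast_nonneg _) hu1 2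
      _ = _ := by ring
  have h11 : l ^ 2 * (N + u) ≤ l ^ 2 * (q ^ 4 + 1331 / 2058 * q ^ 3) := by
    refine mul_le_mul_of_nonneg_left ?_ (sq_nonneg _)
    rw [hq]
    linarith
  linarith

end Pool.Agent.GSC
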