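import Pool.Agent.GSC.Data

/-!
In every interval `[N / C, N]` there is an `M` with `A(M) ≥ 1.94 M^(1/3)`.
-/

set_option autoImplicit false

namespace Pool.Agent.GSC

noncomputable def gR (m : ℕ) : ℝ := (gN m : ℝ) / 10 ^ 5

noncomputable def aR (j : ℕ) : ℝ := (aN j : ℝ) / 10 ^ 5

theorem sumZ_cast (f : ℕ → ℤ) (n : ℕ) : (sumZ f n : ℝ) = ∑ j ∈ Finset.range n, (f j : ℝ) := by
  induction n with
  | zero => simp [sumZ]
  | succ n ih => rw [sumZ, Finset.sum_range_succ, Int.cast_add, ih]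

theorem Sm_eq (i : ℕ) : Sm 99 gR aR i = (sZ i : ℝ) / 10 ^ 10 := by
  rw [Sm, sZ, Int.cast_sub, sumZ_cast, sub_div, Finset.sum_div]
  congr 1
  · rw [gR]; push_cast; ring
  · refine Finset.sum_congr rfl fun j _ => ?_
    rw [gR, gR, aR]; push_cast; ring

theorem Em_ge : (0.1166 : ℝ) ≤ Em 99 gR aR := by
  have h : Em 99 gR aR = (eZ : ℝ) / 10 ^ 15 := by
    rw [Em, eZ, Int.cast_sub, sumZ_cast, sub_div, Finset.sum_div]
    congr 1
    · rw [Sm_eq]; push_cast; ring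
    · refine Finset.sum_congr rfl fun j _ => ?_
      rw [Sm_eq, Sm_eq, aR]; push_cast; ring
  rw [h, le_div_iff₀ (by norm_num)]
  have h1 : ((116600000000000 : ℤ) : ℝ) ≤ (eZ : ℝ) := Int.cast_le.2 fact5
  refine le_trans (le_of_eq ?_) h1
  norm_num

theorem near_max {N : ℕ} (hN : 64000000 ≤ N)
    (h : ∀ M, N / 100 ≤ M → M ≤ N →
      (A M : ℝ) ^ 3 * N ≤ (1 + 1 / 10000) * (A N : ℝ) ^ 3 * M) :
    (1.94 : ℝ) ^ 3 * N ≤ (A N : ℝ) ^ 3 := by
  by_contra hcon
  push Not at hcon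
  obtain ⟨t, ht⟩ : ∃ t : ℝ, t = (N : ℝ) ^ (1 / 3 : ℝ) := ⟨_, rfl⟩
  have hN0 : (0 : ℝ) ≤ N := Nat.cast_nonneg N
  have ht3 : t ^ 3 = N := by
    rw [ht, ← Real.rpow_natCast, ← Real.rpow_mul hN0]
    norm_num
  have ht0 : 0 ≤ t := by rw [ht]; exact Real.rpow_nonneg hN0 _
  have ht400 : 400 ≤ t := by
    by_contra hc
    push Not at hc
    have h1 : t ^ 3 < 400 ^ 3 := pow_lt_pow_left₀ hc ht0 (by norm_num)
    have h2 : (64000000 : ℝ) ≤ N := by exact_mod_cast hN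
    rw [ht3] at h1
    norm_num at h1
    linarith
  have ht1 : 1 ≤ t := by linarith
  have htp : 0 < t := by linarith
  have hδt : 16 ≤ (1 / 10000 : ℝ) * t ^ 2 := by nlinarith
  have hNpos : 0 < N := by omega
  have h1 : ∀ m ≤ 2 * 99, gR m * t ≤ A ((m - (99 + 1)) * N / (99 + 1)) := by
    intro m hm
    rcases Nat.lt_or_ge 100 m with hm1 | hm1
    · obtain ⟨d, hd⟩ := Nat.exists_eq_add_of_lt hm1
      have hd2 : m = 101 + d := by omega
      have hd1 : d < 98 := by omega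
      have e1 : m - (99 + 1) = d + 1 := by omega
      rw [e1, hd2]
      have f3 := fact3 d hd1
      have f6 := fact6 d hd1
      have f3' : ((gN (101 + d) : ℝ)) ^ 3 * 10 ^ 6 + 10 ^ 17 ≤ 6 * ((d : ℝ) + 1) * 10 ^ 19 := by
        exact_mod_cast f3
      have f6' : (gN (101 + d) : ℝ) ≤ 200000 := by exact_mod_cast f6
      refine low (K := 99 + 1) (by norm_num) ht1 ht3 (δ := 1 / 10000) (by norm_num) hδt ?_ ?_ ?_
      · rw [gR]; positivity
      · rw [gR, div_le_iff₀ (by norm_num)]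
        linarith
      · rw [gR]
        push_cast
        have e2 : ((gN (101 + d) : ℝ) / 10 ^ 5) ^ 3 + 1 / 10000 =
            ((gN (101 + d) : ℝ) ^ 3 * 10 ^ 6 + 10 ^ 17) / 10 ^ 21 := by ring
        rw [e2, div_le_iff₀ (by norm_num)]
        refine f3'.trans (le_of_eq ?_)
        ring
    · have e3 : gR m = 0 := by
        rw [gR, gN, if_pos hm1]
        simp
      rw [e3, zero_mul]
      positivity
  have h2 : ∀ j < 99, (A ((j + 1) * N / (99 + 1)) : ℝ) ≤ aR j * A N := by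
    intro j hj
    have f2 := fact2 j hj
    have f2' : 10001 * ((j : ℝ) + 1) * 10 ^ 15 ≤ (aN j : ℝ) ^ 3 * 10 ^ 6 := by exact_mod_cast f2
    refine high (K := 99 + 1) (by norm_num) hNpos rfl (ε := 1 / 10000) ?_ (by norm_num) ?_ ?_
    · rw [aR]; positivity
    · rw [aR]
      push_cast
      have e4 : (1 + 1 / 10000) * ((j : ℝ) + 1) / 100 =
          (10001 * ((j : ℝ) + 1) * 10 ^ 15) / 10 ^ 21 := by ring
      have e5 : ((aN j : ℝ) / 10 ^ 5) ^ 3 = ((aN j : ℝ) ^ 3 * 10 ^ 6) / 10 ^ 21 := by ring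
      have e6 : (1 + 1 / 10000) * ((j : ℝ) + 1) / 100 ≤ ((aN j : ℝ) / 10 ^ 5) ^ 3 := by
        rw [e4, e5]
        exact div_le_div_of_nonneg_right f2' (by norm_num)
      norm_num at e6 ⊢
      linarith
    · refine h _ ?_ ?_
      · refine Nat.div_le_div_right ?_
        exact Nat.le_mul_of_pos_left N (by omega)
      · refine Nat.div_le_of_le_mul ?_
        exact Nat.mul_le_mul_right N (by omega)
  have h3 : ∀ m < 2 * 99, gR m ≤ gR (m + 1) := by
    intro m hm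
    rw [gR, gR]
    exact div_le_div_of_nonneg_right (by exact_mod_cast fact1 m hm) (by norm_num)
  have h4 : ∀ i < 99, Sm 99 gR aR i ≤ Sm 99 gR aR (i + 1) := by
    intro i hi
    rw [Sm_eq, Sm_eq]
    exact div_le_div_of_nonneg_right (by exact_mod_cast fact4 i hi) (by norm_num)
  have h5 := waste_num hNpos gR aR htp h1 h2 h3 h4
  have h6 := waste N
  have h7 : (6 : ℝ) * N + 6 * (W N).card ≤ (A N : ℝ) ^ 3 + 5 * A N := by exact_mod_cast h6
  obtain ⟨n, hn⟩ : ∃ n : ℝ, n = (A N : ℝ) := ⟨_, rfl⟩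
  rw [← hn] at h5 h7 hcon
  have hn0 : 0 ≤ n := by rw [hn]; positivity
  rw [← ht3] at h7 hcon
  have h8 : (0.1166 : ℝ) * t * n ^ 2 ≤ Em 99 gR aR * t * n ^ 2 := by
    have := mul_le_mul_of_nonneg_right Em_ge (by positivity : (0 : ℝ) ≤ t * n ^ 2)
    linarith
  have hnt : n < 1.94 * t := by
    have h9 : n ^ 3 < (1.94 * t) ^ 3 := by
      calc n ^ 3 < 1.94 ^ 3 * t ^ 3 := hcon
        _ = _ := by ring
    exact lt_of_pow_lt_pow_left₀ 3 (by positivity) h9
  have h10 : 6 * t ^ 3 + 0.3498 * t * n ^ 2 ≤ n ^ 3 + 5 * n := by linarith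
  have h11 : n ^ 3 - 0.3498 * t * n ^ 2 ≤ 5.985 * t ^ 3 := by
    have e6 : n ^ 3 - 0.3498 * t * n ^ 2 = n ^ 2 * (n - 0.3498 * t) := by ring
    rw [e6]
    rcases le_total (0.3498 * t) n with hc | hc
    · have h12 : n ^ 2 ≤ (1.94 * t) ^ 2 := pow_le_pow_left₀ hn0 hnt.le 2
      calc n ^ 2 * (n - 0.3498 * t) ≤ (1.94 * t) ^ 2 * (1.94 * t - 0.3498 * t) :=
            mul_le_mul h12 (by linarith) (by linarith) (by positivity)
        _ = 5.98487672 * t ^ 3 := by ring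
        _ ≤ _ := by
          have : 0 ≤ t ^ 3 := by positivity
          linarith
    · have h12 : n ^ 2 * (n - 0.3498 * t) ≤ 0 :=
        mul_nonpos_of_nonneg_of_nonpos (by positivity) (by linarith)
      have : 0 ≤ t ^ 3 := by positivity
      linarith
  have h13 : 0.015 * t ^ 3 ≤ 5 * (1.94 * t) := by linarith
  have h14 : t ^ 3 = t * t ^ 2 := by ring
  have h15 : (160000 : ℝ) ≤ t ^ 2 := by nlinarith
  rw [h14] at h13
  nlinarith

theorem five {N : ℕ} (hN : 1000 ≤ N) : (5 : ℝ) * N ≤ (A N : ℝ) ^ 3 := by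
  by_contra hcon
  push Not at hcon
  have h1 := trivial_bound N
  have hc : A N ^ 3 < 5 * N := by exact_mod_cast hcon
  have h2 : N < 5 * A N := by omega
  have h3 : 1000 < 5 * A N := by omega
  have h4 : 200 < A N := by omega
  nlinarith [Nat.mul_le_mul h4.le h4.le]

/-- The ratio. -/
noncomputable def rho (N : ℕ) : ℝ := (A N : ℝ) ^ 3 / N

theorem iter (j : ℕ) : ∀ N : ℕ, 64000000 * 200 ^ j ≤ N →
    (∀ M, M ≤ N → N ≤ 200 ^ j * M → (A M : ℝ) ^ 3 < (1.94 : ℝ) ^ 3 * M) →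
    ∃ M, M ≤ N ∧ N ≤ 200 ^ j * M ∧ (1 + 1 / 10000) ^ j * rho N ≤ rho M := by
  induction j with
  | zero =>
    intro N _ _
    exact ⟨N, le_rfl, by simp, by simp⟩
  | succ j ih =>
    intro N hN hbad
    have hpow : 200 ^ (j + 1) = 200 * 200 ^ j := by ring
    obtain ⟨M, hM1, hM2, hM3⟩ := ih N (le_trans (Nat.mul_le_mul_left _
      (Nat.pow_le_pow_right (by norm_num) (Nat.le_succ j))) hN) (fun M h1 h2 => hbad M h1
        (h2.trans (Nat.mul_le_mul_right M (Nat.pow_le_pow_right (by norm_num) (Nat.le_succ j)))))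
    have hM4 : 64000000 * 200 ≤ M := by
      have h1 : 200 ^ j * (64000000 * 200) ≤ 200 ^ j * M := by
        calc 200 ^ j * (64000000 * 200) = 64000000 * 200 ^ (j + 1) := by rw [hpow]; ring
          _ ≤ N := hN
          _ ≤ _ := hM2
      exact Nat.le_of_mul_le_mul_left h1 (by positivity)
    have hMb := hbad M hM1 (hM2.trans (Nat.mul_le_mul_right M
      (Nat.pow_le_pow_right (by norm_num) (Nat.le_succ j))))
    have hex : ¬ ∀ M', M / 100 ≤ M' → M' ≤ M →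
        (A M' : ℝ) ^ 3 * M ≤ (1 + 1 / 10000) * (A M : ℝ) ^ 3 * M' := by
      intro hall
      exact absurd (near_max (by omega) hall) (not_le.2 hMb)
    push Not at hex
    obtain ⟨M', h1, h2, h3⟩ := hex
    have hM'0 : 0 < M' := by omega
    have hM'R : (0 : ℝ) < M' := by exact_mod_cast hM'0
    have hMR : (0 : ℝ) < M := by exact_mod_cast (by omega : 0 < M)
    refine ⟨M', h2.trans hM1, ?_, ?_⟩
    · have h4 : M ≤ 200 * M' := by omega
      calc N ≤ 200 ^ j * M := hM2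
        _ ≤ 200 ^ j * (200 * M') := Nat.mul_le_mul_left _ h4
        _ = _ := by rw [hpow]; ring
    · have h5 : (1 + 1 / 10000) * rho M ≤ rho M' := by
        rw [rho, rho, ← mul_div_assoc, div_le_div_iff₀ hMR hM'R]
        exact h3.le
      calc (1 + 1 / 10000) ^ (j + 1) * rho N = (1 + 1 / 10000) * ((1 + 1 / 10000) ^ j * rho N) := by
            ring
        _ ≤ (1 + 1 / 10000) * rho M := mul_le_mul_of_nonneg_left hM3 (by norm_num)
        _ ≤ _ := h5

/-- In every interval `[N / C, N]` there is an `M` with `A(M)³ ≥ 1.94³ M`. -/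
theorem window : ∃ C : ℕ, ∀ N : ℕ, C ≤ N → ∃ M, M ≤ N ∧ N ≤ C * M ∧
    (1.94 : ℝ) ^ 3 * M ≤ (A M : ℝ) ^ 3 := by
  obtain ⟨J, hJ⟩ := pow_unbounded_of_one_lt (2 : ℝ) (by norm_num : (1 : ℝ) < 1 + 1 / 10000)
  refine ⟨64000000 * 200 ^ J, fun N hN => ?_⟩
  by_contra hcon
  push Not at hcon
  have hbad : ∀ M, M ≤ N → N ≤ 200 ^ J * M → (A M : ℝ) ^ 3 < (1.94 : ℝ) ^ 3 * M := by
    intro M h1 h2
    refine hcon M h1 (h2.trans ?_)
    exact Nat.mul_le_mul_right M (Nat.le_mul_of_pos_left _ (by norm_num))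
  obtain ⟨M, h1, h2, h3⟩ := iter J N hN hbad
  have h4 := hbad M h1 h2
  have hN1 : 64000000 ≤ N := le_trans (Nat.le_mul_of_pos_right _ (by positivity)) hN
  have hM0 : 0 < M := by
    rcases Nat.eq_zero_or_pos M with rfl | h
    · rw [mul_zero] at h2
      omega
    · exact h
  have hMR : (0 : ℝ) < M := by exact_mod_cast hM0
  have hNR : (0 : ℝ) < N := by exact_mod_cast (by omega : 0 < N)
  have h5 : rho M < (1.94 : ℝ) ^ 3 := by
    rw [rho, div_lt_iff₀ hMR]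
    exact h4
  have h6 : 5 ≤ rho N := by
    rw [rho, le_div_iff₀ hNR]
    exact five (by omega)
  have h7 : (2 : ℝ) * 5 ≤ (1 + 1 / 10000) ^ J * rho N :=
    mul_le_mul hJ.le h6 (by norm_num) (by positivity)
  have h8 : (1.94 : ℝ) ^ 3 < 8 := by norm_num
  linarith

end Pool.Agent.GSC
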